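import Pool.Agent.H818.TG.Defs

/-!
# Simple connectivity of a graph from a universal property (helper127 for helper818)
-/

set_option autoImplicit false

namespace Pool.Agent.H818.TG.P1

open Pool.Agent.H351 Pool.Agent.H818.TG

universe u v w

/-- homotopy of lists -/
def Hm {V : Type v} (Γ : SimpleGraph V) (l l' : List V) : Prop := ∃ n, Hq Γ l l' n

section Basic

variable {V : Type v} {Γ : SimpleGraph V}

theorem Hm.refl (l : List V) : Hm Γ l l := ⟨0, Hq.refl l 0⟩

theorem Hm.symm {l l' : List V} (h : Hm Γ l l') : Hm Γ l' l := by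
  obtain ⟨n, h⟩ := h
  exact ⟨n, h.symm⟩

theorem Hm.trans {l l' l'' : List V} (h : Hm Γ l l') (h' : Hm Γ l' l'') : Hm Γ l l'' := by
  obtain ⟨n, h⟩ := h
  obtain ⟨m, h'⟩ := h'
  exact ⟨n + m, h.trans h'⟩

theorem Hm.ctx {l l' : List V} (h : Hm Γ l l') (a b : List V) :
    Hm Γ (a ++ (l ++ b)) (a ++ (l' ++ b)) := by
  obtain ⟨n, h⟩ := h
  exact ⟨n, h.ctx a b⟩

theorem Hm.congr {l l' k k' : List V} (h : Hm Γ l l') (e : l = k) (e' : l' = k') : Hm Γ k k' :=
  e ▸ e' ▸ h

variable {G : Type u} [Group G] [MulAction G V]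

theorem Hp_smul (hact : ∀ (g : G) (x y : V), Γ.Adj x y → Γ.Adj (g • x) (g • y)) (g : G)
    {p q : List V} {n : ℕ} (h : Hp Γ p q n) :
    Hp Γ (p.map (g • ·)) (q.map (g • ·)) n := by
  intro l1 l2 m hm
  have e1 : ∀ l : List V, (l.map (g • ·)).map (g⁻¹ • ·) = l := fun l => by
    simp [List.map_map, Function.comp_def]
  have e2 : ∀ l : List V, (l.map (g⁻¹ • ·)).map (g • ·) = l := fun l => by
    simp [List.map_map, Function.comp_def]
  have h1 := hm.map (H := Γ) (g⁻¹ • ·) (fun x y => hact g⁻¹ x y)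
  have h2 : Cl Γ (l1.map (g⁻¹ • ·) ++ (p ++ l2.map (g⁻¹ • ·))) m :=
    h1.congr (by simp only [List.map_append, e1])
  have h3 := (h _ _ _ h2).map (H := Γ) (g • ·) (fun x y => hact g x y)
  exact h3.congr (by simp only [List.map_append, e2])

theorem Hm.smul (hact : ∀ (g : G) (x y : V), Γ.Adj x y → Γ.Adj (g • x) (g • y)) (g : G)
    {p q : List V} (h : Hm Γ p q) : Hm Γ (p.map (g • ·)) (q.map (g • ·)) := by
  obtain ⟨n, h⟩ := h
  exact ⟨n, Hp_smul hact g h.1, Hp_smul hact g h.2⟩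

/-- the equivalence of paths from `x0` -/
def std (Γ : SimpleGraph V) (x0 : V) : Setoid (List V) where
  r l l' := Hm Γ (x0 :: l) (x0 :: l')
  iseqv := ⟨fun _ => Hm.refl _, fun h => h.symm, fun h h' => h.trans h'⟩

/-- the classes of paths from `x0` -/
abbrev Cs (Γ : SimpleGraph V) (x0 : V) : Type v := Quotient (std Γ x0)

theorem cs_eq {x0 : V} {l l' : List V} (h : Hm Γ (x0 :: l) (x0 :: l')) :
    (Quotient.mk (std Γ x0) l) = Quotient.mk (std Γ x0) l' := Quotient.sound h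

theorem of_cs_eq {x0 : V} {l l' : List V}
    (h : (Quotient.mk (std Γ x0) l) = Quotient.mk (std Γ x0) l') :
    Hm Γ (x0 :: l) (x0 :: l') := Quotient.exact h

/-- the identity of lists for a path with the last vertex `x` -/
theorem k2 {x0 x : V} {P X : List V} (hX : x0 :: P = X ++ [x]) (R : List V) :
    x0 :: (P ++ R) = X ++ (x :: R) := by
  calc x0 :: (P ++ R) = (x0 :: P) ++ R := rfl
    _ = (X ++ [x]) ++ R := by rw [hX]
    _ = X ++ (x :: R) := by simp

theorem k3 {x0 x : V} {Q Y : List V} (hY : x :: Q = Y ++ [x0]) {a : G} (ha : a • x = x)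
    (R : List V) : x :: (Q.map (a • ·) ++ R) = Y.map (a • ·) ++ (a • x0 :: R) := by
  calc x :: (Q.map (a • ·) ++ R) = (a • x) :: (Q.map (a • ·) ++ R) := by rw [ha]
    _ = (x :: Q).map (a • ·) ++ R := rfl
    _ = (Y ++ [x0]).map (a • ·) ++ R := by rw [hY]
    _ = Y.map (a • ·) ++ (a • x0 :: R) := by simp

theorem T_wd (hact : ∀ (g : G) (x y : V), Γ.Adj x y → Γ.Adj (g • x) (g • y)) {x0 x : V}
    {P Q X Y : List V} (hX : x0 :: P = X ++ [x]) (hY : x :: Q = Y ++ [x0]) {a : G}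
    (ha : a • x = x) {l l' : List V} (h : Hm Γ (x0 :: l) (x0 :: l')) :
    Hm Γ (x0 :: (P ++ (Q.map (a • ·) ++ l.map (a • ·))))
      (x0 :: (P ++ (Q.map (a • ·) ++ l'.map (a • ·)))) := by
  have h1 := (h.smul hact a).ctx (X ++ Y.map (a • ·)) []
  refine h1.congr ?_ ?_
  · rw [k2 hX, k3 hY ha]
    simp
  · rw [k2 hX, k3 hY ha]
    simp

theorem T_comp (hact : ∀ (g : G) (x y : V), Γ.Adj x y → Γ.Adj (g • x) (g • y)) {x0 x : V}
    {P Q X : List V} (hX : x0 :: P = X ++ [x]) {a : G}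
    (ha : a • x = x) (hQP : Hm Γ (x :: (Q ++ P)) [x]) (R : List V) :
    Hm Γ (x0 :: (P ++ (Q.map (a • ·) ++ (P.map (a • ·) ++ R)))) (x0 :: (P ++ R)) := by
  have h1 := (hQP.smul hact a).ctx X R
  refine h1.congr ?_ ?_
  · rw [k2 hX]
    simp [ha]
  · rw [k2 hX]
    simp [ha]

theorem T_adj (hact : ∀ (g : G) (x y : V), Γ.Adj x y → Γ.Adj (g • x) (g • y)) {x0 x x' : V}
    {P Q P' Q' X : List V} (hX : x0 :: P = X ++ [x]) {a : G}
    (ha : a • x = x) (ha' : a • x' = x') (hadj : Hm Γ (x0 :: (P ++ [x'])) (x0 :: P'))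
    (hadjQ : Hm Γ (x :: x' :: Q') (x :: Q)) (R : List V) :
    Hm Γ (x0 :: (P ++ (Q.map (a • ·) ++ R))) (x0 :: (P' ++ (Q'.map (a • ·) ++ R))) := by
  have h1 := hadj.ctx [] (Q'.map (a • ·) ++ R)
  have h2 := (hadjQ.smul hact a).ctx X R
  have h3 : Hm Γ (x0 :: (P ++ (x' :: (Q'.map (a • ·) ++ R))))
      (x0 :: (P ++ (Q.map (a • ·) ++ R))) := by
    refine h2.congr ?_ ?_
    · rw [k2 hX]
      simp [ha, ha']
    · rw [k2 hX]
      simp [ha]
  refine h3.symm.trans (h1.congr ?_ ?_)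
  · simp
  · simp

/-- the homomorphism of a vertex group to the permutations of the classes of paths -/
theorem exists_hom (hact : ∀ (g : G) (x y : V), Γ.Adj x y → Γ.Adj (g • x) (g • y)) {x0 x : V}
    {P Q X Y : List V} (hX : x0 :: P = X ++ [x]) (hY : x :: Q = Y ++ [x0]) (A : Subgroup G)
    (hfix : ∀ a ∈ A, a • x = x) (hPQ : Hm Γ (x0 :: (P ++ Q)) [x0])
    (hQP : Hm Γ (x :: (Q ++ P)) [x]) :
    ∃ f : A →* Equiv.Perm (Cs Γ x0), ∀ (a : A) (l : List V),
      f a (Quotient.mk (std Γ x0) l) =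
        Quotient.mk (std Γ x0) (P ++ (Q.map (a.1 • ·) ++ l.map (a.1 • ·))) := by
  let T : A → Cs Γ x0 → Cs Γ x0 := fun a =>
    Quotient.map (fun l => P ++ (Q.map (a.1 • ·) ++ l.map (a.1 • ·)))
      (fun l l' h => T_wd hact hX hY (hfix a.1 a.2) h)
  have hT : ∀ (a : A) (l : List V), T a (Quotient.mk (std Γ x0) l) =
      Quotient.mk (std Γ x0) (P ++ (Q.map (a.1 • ·) ++ l.map (a.1 • ·))) := fun a l => rfl
  have hone : ∀ s, T 1 s = s := by
    intro s
    induction s using Quotient.inductionOn with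
    | _ l =>
      rw [hT]
      apply cs_eq
      have h1 := hPQ.ctx [] l
      refine h1.congr ?_ ?_ <;> simp
  have hmul : ∀ a b s, T (a * b) s = T a (T b s) := by
    intro a b s
    induction s using Quotient.inductionOn with
    | _ l =>
      rw [hT, hT, hT]
      apply cs_eq
      have h1 := T_comp hact hX (hfix a.1 a.2) hQP
        ((Q.map (b.1 • ·)).map (a.1 • ·) ++ (l.map (b.1 • ·)).map (a.1 • ·))
      refine h1.symm.congr ?_ ?_ <;> simp [mul_smul, Function.comp_def]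
  refine ⟨{ toFun := fun a => ⟨T a, T a⁻¹, fun s => ?_, fun s => ?_⟩
            map_one' := ?_
            map_mul' := fun a b => ?_ }, hT⟩
  · rw [← hmul, inv_mul_cancel, hone]
  · rw [← hmul, mul_inv_cancel, hone]
  · ext s
    exact hone s
  · ext s
    exact hmul a b s

/-- appending a vertex to a path -/
def apnd (Γ : SimpleGraph V) (x0 : V) (u : V) : Cs Γ x0 → Cs Γ x0 :=
  Quotient.map (fun l => l ++ [u]) (fun l l' h => (h.ctx [] [u]).congr (by simp) (by simp))

theorem apnd_mk (x0 u : V) (l : List V) :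
    apnd Γ x0 u (Quotient.mk (std Γ x0) l) = Quotient.mk (std Γ x0) (l ++ [u]) := rfl

/-- from two homotopic paths to a closed walk -/
theorem close_up {x0 a : V} {p l R : List V} (hR : x0 :: p = R ++ [a]) (hp : Ch Γ (x0 :: p))
    (h : Hm Γ (x0 :: (p ++ (l ++ [a]))) (x0 :: p)) : ∃ n, Cl Γ (a :: (l ++ [a])) n := by
  obtain ⟨n, hn⟩ := h
  have h1 : Cl Γ ((R ++ [a]) ++ R.reverse) 0 := by
    rw [hR] at hp
    cases R with
    | nil => exact Cl.triv a 0
    | cons x R' => exact (Cl.of_Ch (P := R') (x := x) (y := a) hp).congr (by simp)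
  have h2 : Cl Γ ([] ++ ((x0 :: p) ++ R.reverse)) 0 := h1.congr (by rw [hR]; rfl)
  have h3 := hn.2 [] R.reverse 0 h2
  have h4 : Cl Γ (R ++ (a :: (l ++ ([a] ++ R.reverse)))) (0 + n) := h3.congr (by
    rw [k2 hR]
    simp)
  refine ⟨0 + n, ?_⟩
  cases R with
  | nil => exact h4.congr (by simp)
  | cons x R' =>
    have h5 : Cl Γ (x :: (R' ++ a :: (l ++ ([a] ++ (x :: R').reverse)))) (0 + n) := h4
    have h6 := h5.rotate
    have h7 : Cl Γ ((a :: l) ++ a :: (R'.reverse ++ x :: (R'.reverse.reverse ++ a :: [])))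
        (0 + n) := h6.congr (by simp)
    exact (Cl.cancel R'.reverse h7).congr (by simp)

theorem exists_path (hconn : Γ.Connected) (x y : V) :
    ∃ p R : List V, Ch Γ (x :: p) ∧ x :: p = R ++ [y] := by
  obtain ⟨W⟩ := hconn.preconnected x y
  induction W with
  | nil => exact ⟨[], [], by simp, by simp⟩
  | cons h W ih =>
    rename_i a b c
    obtain ⟨p, R, h1, h2⟩ := ih
    refine ⟨b :: p, a :: R, ?_, ?_⟩
    · rw [Ch_cons2]
      exact ⟨h, h1⟩
    · rw [h2]
      rfl

end Basic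

/-- SCH -/
theorem SCH {V : Type v} {Γ : SimpleGraph V} {G : Type u} [Group G] [MulAction G V]
    (hconn : Γ.Connected)
    (hact : ∀ (g : G) (x y : V), Γ.Adj x y → Γ.Adj (g • x) (g • y))
    {ι : Type w} (v : ι → V) (A : ι → Subgroup G) (i0 : ι) (P Q : ι → List V)
    (hfix : ∀ i, ∀ a ∈ A i, a • v i = v i)
    (hgen : ⨆ i, A i = ⊤)
    (hedge : ∀ x y, Γ.Adj x y → ∃ (g : G) (i j : ι), x = g • v i ∧ y = g • v j ∧ Γ.Adj (v i) (v j))
    (hsep : ∀ (g h : G) (i j : ι), g • v i = h • v j → i = j ∧ g⁻¹ * h ∈ A i)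
    (hP0 : P i0 = []) (hQ0 : Q i0 = [])
    (hlastP : ∀ i, (v i0 :: P i).getLast? = some (v i))
    (hlastQ : ∀ i, (v i :: Q i).getLast? = some (v i0))
    (hPQ : ∀ i, ∃ n, Hq Γ (v i0 :: (P i ++ Q i)) [v i0] n)
    (hQP : ∀ i, ∃ n, Hq Γ (v i :: (Q i ++ P i)) [v i] n)
    (hadj : ∀ i j, Γ.Adj (v i) (v j) → ∃ n, Hq Γ (v i0 :: (P i ++ [v j])) (v i0 :: P j) n)
    (hadjQ : ∀ i j, Γ.Adj (v i) (v j) → ∃ n, Hq Γ (v i :: v j :: Q j) (v i :: Q i) n)
    (hF : ∀ (H : Type v) [Group H] (f : ∀ i, A i →* H),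
      (∀ i j, Γ.Adj (v i) (v j) → ∀ (x : G) (hi : x ∈ A i) (hj : x ∈ A j),
        f i ⟨x, hi⟩ = f j ⟨x, hj⟩) → ∃ F : G →* H, ∀ i (x : A i), F x = f i x) :
    SimplyConn Γ := by
  have hX : ∀ i, ∃ X, v i0 :: P i = X ++ [v i] := fun i =>
    List.getLast?_eq_some_iff.1 (hlastP i)
  have hY : ∀ i, ∃ Y, v i :: Q i = Y ++ [v i0] := fun i =>
    List.getLast?_eq_some_iff.1 (hlastQ i)
  choose X hX using hX
  choose Y hY using hY
  choose f hf using fun i => exists_hom hact (hX i) (hY i) (A i) (hfix i) (hPQ i) (hQP i)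
  obtain ⟨F, hFf⟩ := hF (Equiv.Perm (Cs Γ (v i0))) f (by
    intro i j hij x hi hj
    ext s
    induction s using Quotient.inductionOn with
    | _ l =>
      rw [hf, hf]
      exact cs_eq (T_adj hact (hX i) (hfix i x hi) (hfix j x hj) (hadj i j hij)
        (hadjQ i j hij) _))
  -- compatibility with appending
  have happ : ∀ (g : G) (u : V) (s : Cs Γ (v i0)),
      F g (apnd Γ (v i0) u s) = apnd Γ (v i0) (g • u) (F g s) := by
    intro g
    have hg : g ∈ ⨆ i, A i := by rw [hgen]; trivial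
    refine Subgroup.iSup_induction A (C := fun g => ∀ (u : V) (s : Cs Γ (v i0)),
      F g (apnd Γ (v i0) u s) = apnd Γ (v i0) (g • u) (F g s)) hg ?_ ?_ ?_
    · intro i x hx u s
      induction s using Quotient.inductionOn with
      | _ l =>
        have h1 := hFf i ⟨x, hx⟩
        have h2 : F x = f i ⟨x, hx⟩ := h1
        rw [h2, apnd_mk, hf, hf, apnd_mk]
        congr 1
        simp
    · intro u s
      rw [map_one, one_smul]
      rfl
    · intro x y hx hy u s
      rw [map_mul, mul_smul]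
      show F x (F y (apnd Γ (v i0) u s)) = apnd Γ (v i0) (x • y • u) (F x (F y s))
      rw [hy, hx]
  -- the classes of the vertices of the chamber
  have hfixs : ∀ i, ∀ a ∈ A i, F a (Quotient.mk (std Γ (v i0)) (P i)) =
      Quotient.mk (std Γ (v i0)) (P i) := by
    intro i a ha
    have h1 : F a = f i ⟨a, ha⟩ := hFf i ⟨a, ha⟩
    rw [h1, hf]
    apply cs_eq
    have h2 := T_comp hact (hX i) (hfix i a ha) (hQP i) []
    exact h2.congr (by simp) (by simp)
  have hadjs : ∀ i j, Γ.Adj (v i) (v j) →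
      apnd Γ (v i0) (v j) (Quotient.mk (std Γ (v i0)) (P i)) =
        Quotient.mk (std Γ (v i0)) (P j) := by
    intro i j hij
    rw [apnd_mk]
    exact cs_eq (hadj i j hij)
  -- the claim
  have hclaim : ∀ l : List V, Ch Γ (v i0 :: l) → ∀ (g : G) (i : ι) (L : List V),
      v i0 :: l = L ++ [g • v i] → Quotient.mk (std Γ (v i0)) l =
        F g (Quotient.mk (std Γ (v i0)) (P i)) := by
    intro l
    induction l using List.reverseRecOn with
    | nil =>
      intro _ g i L hL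
      have h1 : L = [] := by
        have := congrArg List.length hL
        simp at this
        exact this
      rw [h1] at hL
      simp only [List.nil_append, List.cons.injEq, and_true] at hL
      obtain ⟨rfl, h2⟩ := hsep 1 g i0 i (by rw [one_smul]; exact hL)
      rw [inv_one, one_mul] at h2
      rw [hfixs i0 g h2, hP0]
    | append_singleton l u ih =>
      intro hl g k L hL
      have hL' : (v i0 :: l) ++ [u] = L ++ [g • v k] := hL
      obtain ⟨hL1, hL2⟩ := List.append_inj' hL' rfl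
      have hu : u = g • v k := by simpa using hL2
      -- the last edge
      obtain ⟨L0, w, hw⟩ : ∃ L0 w, v i0 :: l = L0 ++ [w] := by
        rcases List.eq_nil_or_concat (v i0 :: l) with h | ⟨a, b, h⟩
        · exact absurd h (by simp)
        · exact ⟨a, b, by simpa using h⟩
      have h1 : Ch Γ (L0 ++ w :: [u]) := by
        have h2 : v i0 :: (l ++ [u]) = L0 ++ w :: [u] := k2 hw [u]
        rw [h2] at hl
        exact hl
      rw [Ch_append] at h1
      obtain ⟨h2, h3⟩ := h1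
      have hwu : Γ.Adj w u := by
        rw [Ch_cons2] at h3
        exact h3.1
      obtain ⟨h, i, j, rfl, hu', hij⟩ := hedge w u hwu
      have h4 := ih (by rw [hw]; exact h2) h i L0 hw
      obtain ⟨rfl, h5⟩ := hsep h g j k (by rw [← hu', ← hu])
      rw [← apnd_mk, h4, hu', ← happ, hadjs i j hij]
      have h6 : g = h * (h⁻¹ * g) := by group
      conv_rhs => rw [h6, map_mul]
      show F h _ = F h (F (h⁻¹ * g) _)
      rw [hfixs j _ h5]
  -- the end
  intro a l hal
  obtain ⟨p, R, hp, hR⟩ := exists_path hconn (v i0) a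
  refine close_up hR hp ?_
  apply of_cs_eq
  obtain ⟨b, hb⟩ : ∃ b, Γ.Adj a b := by
    cases l with
    | nil =>
      simp only [List.nil_append, Ch_cons2] at hal
      exact ⟨a, hal.1⟩
    | cons b l' =>
      simp only [List.cons_append, Ch_cons2] at hal
      exact ⟨b, hal.1⟩
  obtain ⟨g, i, j, hg, -, -⟩ := hedge a b hb
  have h1 := hclaim p hp g i R (by rw [hR, hg])
  have h2 : Ch Γ (v i0 :: (p ++ (l ++ [a]))) := by
    rw [k2 hR, Ch_append]
    exact ⟨by rw [← hR]; exact hp, hal⟩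
  have h3 := hclaim (p ++ (l ++ [a])) h2 g i (R ++ (a :: l)) (by
    rw [k2 hR, ← hg]
    simp)
  rw [h1, h3]

end Pool.Agent.H818.TG.P1
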