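import Pool.Agent.H818.TG.Defs

/-!
# Triangles of groups: no cycles of length four or five in the links of the medial coset graph
-/

set_option autoImplicit false

namespace Pool.Agent.H818.TG.P2

open Pool.Agent.H818.TG

universe u

variable {G : Type u} [Group G] {A : Fin 3 → Subgroup G}

/-- `g` is an element of the coset `p`. -/
def In (A : Fin 3 → Subgroup G) (g : G) (p : Σ t : Fin 3 ⊕ Fin 3, G ⧸ B A t) : Prop :=
  (g : G ⧸ B A p.1) = p.2

lemma memE {k : Fin 3} {x : G} : x ∈ E A k ↔ ∀ i, i ≠ k → x ∈ A i := by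
  unfold E
  rw [Subgroup.mem_inf]
  constructor
  · rintro ⟨h1, h2⟩ i hi
    have h3 : i = k + 1 ∨ i = k + 2 := by
      clear h1 h2
      revert i k
      decide
    rcases h3 with rfl | rfl
    · exact h1
    · exact h2
  · intro h
    have h1 : k + 1 ≠ k := by
      clear h
      revert k
      decide
    have h2 : k + 2 ≠ k := by
      clear h h1
      revert k
      decide
    exact ⟨h _ h1, h _ h2⟩

lemma In.mul {p : Σ t : Fin 3 ⊕ Fin 3, G ⧸ B A t} {g h : G} (hg : In A g p) (hh : In A h p) :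
    g⁻¹ * h ∈ B A p.1 := QuotientGroup.eq.1 (Eq.trans hg (Eq.symm hh))

lemma In.of {p : Σ t : Fin 3 ⊕ Fin 3, G ⧸ B A t} {g h : G} (hg : In A g p)
    (h' : g⁻¹ * h ∈ B A p.1) : In A h p := Eq.trans (QuotientGroup.eq.2 h').symm hg

lemma In.eq {p q : Σ t : Fin 3 ⊕ Fin 3, G ⧸ B A t} {g : G} (hp : In A g p) (hq : In A g q)
    (h : p.1 = q.1) : p = q := by
  obtain ⟨s, p⟩ := p
  obtain ⟨t, q⟩ := q
  dsimp only at h
  subst h
  unfold In at hp hq
  dsimp only at hp hq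
  rw [← hp, ← hq]

lemma In.mulL {p : Σ t : Fin 3 ⊕ Fin 3, G ⧸ B A t} {g h : G} {i : Fin 3} (hp : p.1 = .inl i)
    (hg : In A g p) (hh : In A h p) : g⁻¹ * h ∈ A i := by
  have h1 := hg.mul hh
  rw [hp] at h1
  exact h1

lemma In.mulR {p : Σ t : Fin 3 ⊕ Fin 3, G ⧸ B A t} {g h : G} {k : Fin 3} (hp : p.1 = .inr k)
    (hg : In A g p) (hh : In A h p) : g⁻¹ * h ∈ E A k := by
  have h1 := hg.mul hh
  rw [hp] at h1
  exact h1

lemma In.ofL {p : Σ t : Fin 3 ⊕ Fin 3, G ⧸ B A t} {g h : G} {i : Fin 3} (hp : p.1 = .inl i)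
    (hg : In A g p) (hh : g⁻¹ * h ∈ A i) : In A h p := by
  refine hg.of ?_
  rw [hp]
  exact hh

lemma In.ofR {p : Σ t : Fin 3 ⊕ Fin 3, G ⧸ B A t} {g h : G} {k : Fin 3} (hp : p.1 = .inr k)
    (hg : In A g p) (hh : g⁻¹ * h ∈ E A k) : In A h p := by
  refine hg.of ?_
  rw [hp]
  exact hh

lemma adj_ex {p q : Σ t : Fin 3 ⊕ Fin 3, G ⧸ B A t} (h : (Med A).Adj p q) :
    ∃ g, In A g p ∧ In A g q := h.2

/-- an element of a coset of `E A j` which meets the coset `p` of `A i`, `i ≠ j`, is in `p` -/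
lemma sub_inl {p q : Σ t : Fin 3 ⊕ Fin 3, G ⧸ B A t} {i j : Fin 3} (hp : p.1 = .inl i)
    (hq : q.1 = .inr j) (hij : i ≠ j) (h : (Med A).Adj p q) {g : G} (hg : In A g q) :
    In A g p := by
  obtain ⟨x, hx, hx'⟩ := adj_ex h
  exact hx.ofL hp (memE.1 (hx'.mulR hq hg) i hij)

lemma flag3 {p q r : Σ t : Fin 3 ⊕ Fin 3, G ⧸ B A t} {k l m : Fin 3} (hp : p.1 = .inr k)
    (hq : q.1 = .inr l) (hr : r.1 = .inr m) (hkl : k ≠ l)
    (h1 : (Med A).Adj p q) (h2 : (Med A).Adj q r) (h3 : (Med A).Adj p r) :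
    ∃ g, In A g p ∧ In A g q ∧ In A g r := by
  obtain ⟨x, hxp, hxq⟩ := adj_ex h1
  obtain ⟨y, hyq, hyr⟩ := adj_ex h2
  obtain ⟨z, hzp, hzr⟩ := adj_ex h3
  refine ⟨x, hxp, hxq, hzr.ofR hr ?_⟩
  have ha : x⁻¹ * y ∈ E A l := hxq.mulR hq hyq
  have hb : y⁻¹ * z ∈ E A m := hyr.mulR hr hzr
  have hc : z⁻¹ * x ∈ E A k := hzp.mulR hp hxp
  rw [memE]
  intro i hi
  by_cases hik : i = k
  · subst hik
    have h4 : z⁻¹ * x = ((x⁻¹ * y) * (y⁻¹ * z))⁻¹ := by group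
    rw [h4]
    exact (A i).inv_mem ((A i).mul_mem (memE.1 ha i hkl) (memE.1 hb i hi))
  · exact memE.1 hc i hik

/-- three pairwise adjacent cosets have a common element -/
lemma flag {p q r : Σ t : Fin 3 ⊕ Fin 3, G ⧸ B A t} (h1 : (Med A).Adj p q)
    (h2 : (Med A).Adj q r) (h3 : (Med A).Adj p r) :
    ∃ g, In A g p ∧ In A g q ∧ In A g r := by
  have t1 := h1.1
  have t2 := h2.1
  have t3 := h3.1
  rcases hp : p.1 with i | i <;> rcases hq : q.1 with j | j <;> rcases hr : r.1 with k | k <;>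
    rw [hp, hq] at t1 <;> rw [hq, hr] at t2 <;> rw [hp, hr] at t3 <;>
    simp only [tp] at t1 t2 t3
  · obtain ⟨g, hg, hg'⟩ := adj_ex h2
    exact ⟨g, sub_inl hp hq t1 h1 hg, hg, hg'⟩
  · obtain ⟨g, hg, hg'⟩ := adj_ex h3
    exact ⟨g, hg, sub_inl hq hp t1 h1.symm hg, hg'⟩
  · obtain ⟨g, hg, hg'⟩ := adj_ex h1
    exact ⟨g, hg, hg', sub_inl hr hq t2 h2.symm hg'⟩
  · exact flag3 hp hq hr t1 h1 h2 h3

/-- neighbours of a coset of an edge group of the same type `inl i` are equal -/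
lemma uniqL {v c d : Σ t : Fin 3 ⊕ Fin 3, G ⧸ B A t} {k i : Fin 3} (hv : v.1 = .inr k)
    (hc : c.1 = .inl i) (hd : d.1 = .inl i) (hik : i ≠ k) (h1 : (Med A).Adj v c)
    (h2 : (Med A).Adj v d) : c = d := by
  obtain ⟨g, hg, hg'⟩ := adj_ex h1
  exact hg'.eq (sub_inl hd hv hik h2.symm hg) (hc.trans hd.symm)

/-- common neighbours of two adjacent cosets of edge groups of the same type `inr a` are equal -/
lemma uniqR {v w c d : Σ t : Fin 3 ⊕ Fin 3, G ⧸ B A t} {k b a : Fin 3} (hv : v.1 = .inr k)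
    (hw : w.1 = .inr b) (hc : c.1 = .inr a) (hd : d.1 = .inr a) (hkb : k ≠ b)
    (hvw : (Med A).Adj v w) (h1 : (Med A).Adj v c)
    (h2 : (Med A).Adj w c) (h3 : (Med A).Adj v d) (h4 : (Med A).Adj w d) : c = d := by
  obtain ⟨g, hgv, hgw, hgc⟩ := flag hvw h2 h1
  obtain ⟨h, hhv, hhw, hhd⟩ := flag hvw h4 h3
  refine (hgc.ofR hc ?_).eq hhd (hc.trans hd.symm)
  rw [memE]
  intro i _
  by_cases hik : i = k
  · subst hik
    exact memE.1 (hgw.mulR hw hhw) i hkb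
  · exact memE.1 (hgv.mulR hv hhv) i hik

/-- the step in the link of a coset of a vertex group -/
lemma stepL {v c c' d : Σ t : Fin 3 ⊕ Fin 3, G ⧸ B A t} {i a : Fin 3} {g h : G} (hv : v.1 = .inl i)
    (hc : c.1 = .inr a) (hc' : c'.1 = .inr a) {b : Fin 3} (hd : d.1 = .inr b)
    (hib : i ≠ b) (hiab : ∀ j : Fin 3, j ≠ a → j = i ∨ j = b)
    (hgc : In A g c) (hgd : In A g d) (hhd : In A h d) (hhc : In A h c')
    (hb : g⁻¹ * h ∈ A b) : c = c' := by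
  refine (hgc.ofR hc ?_).eq hhc (hc.trans hc'.symm)
  rw [memE]
  intro j hj
  rcases hiab j hj with rfl | rfl
  · exact memE.1 (hgd.mulR hd hhd) j hib
  · exact hb

theorem ANG4 (A : Fin 3 → Subgroup G) (hA : Large A)
    (v c0 c1 c2 c3 : Σ t : Fin 3 ⊕ Fin 3, G ⧸ B A t) (v0 : (Med A).Adj v c0)
    (v1 : (Med A).Adj v c1) (v2 : (Med A).Adj v c2) (v3 : (Med A).Adj v c3)
    (h01 : (Med A).Adj c0 c1) (h12 : (Med A).Adj c1 c2) (h23 : (Med A).Adj c2 c3)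
    (h30 : (Med A).Adj c3 c0) (n02 : c0 ≠ c2) (n13 : c1 ≠ c3) : False := by
  have t0 := v0.1
  have t1 := v1.1
  have t2 := v2.1
  have t3 := v3.1
  have s01 := h01.1
  have s12 := h12.1
  have s23 := h23.1
  have s30 := h30.1
  rcases hv : v.1 with i | k
  · rcases e0 : c0.1 with a0 | a0
    · rw [hv, e0] at t0
      exact t0
    rcases e1 : c1.1 with a1 | a1
    · rw [hv, e1] at t1
      exact t1
    rcases e2 : c2.1 with a2 | a2
    · rw [hv, e2] at t2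
      exact t2
    rcases e3 : c3.1 with a3 | a3
    · rw [hv, e3] at t3
      exact t3
    rw [hv, e0] at t0
    rw [hv, e1] at t1
    rw [hv, e2] at t2
    rw [hv, e3] at t3
    rw [e0, e1] at s01
    rw [e1, e2] at s12
    rw [e2, e3] at s23
    rw [e3, e0] at s30
    simp only [tp] at t0 t1 t2 t3 s01 s12 s23 s30
    obtain rfl : a0 = a2 := by omega
    obtain rfl : a1 = a3 := by omega
    obtain ⟨g0, g0v, g00, g01⟩ := flag v0 h01 v1
    obtain ⟨g1, g1v, g11, g12⟩ := flag v1 h12 v2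
    obtain ⟨g2, g2v, g22, g23⟩ := flag v2 h23 v3
    obtain ⟨g3, g3v, g33, g30⟩ := flag v3 h30 v0
    have x0 : g0⁻¹ * g1 ∈ A i ⊓ A a0 :=
      ⟨g0v.mulL hv g1v, memE.1 (g01.mulR e1 g11) a0 s01⟩
    have x1 : g1⁻¹ * g2 ∈ A i ⊓ A a1 :=
      ⟨g1v.mulL hv g2v, memE.1 (g12.mulR e2 g22) a1 s12⟩
    have x2 : g2⁻¹ * g3 ∈ A i ⊓ A a0 :=
      ⟨g2v.mulL hv g3v, memE.1 (g23.mulR e3 g33) a0 s23⟩
    have x3 : g3⁻¹ * g0 ∈ A i ⊓ A a1 :=
      ⟨g3v.mulL hv g0v, memE.1 (g30.mulR e0 g00) a1 s30⟩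
    have hprod : (g0⁻¹ * g1) * (g1⁻¹ * g2) * (g2⁻¹ * g3) * (g3⁻¹ * g0) ∈ A 0 ⊓ A 1 ⊓ A 2 := by
      have h5 : (g0⁻¹ * g1) * (g1⁻¹ * g2) * (g2⁻¹ * g3) * (g3⁻¹ * g0) = 1 := by group
      rw [h5]
      exact one_mem _
    have hcov0 : ∀ j : Fin 3, j ≠ a0 → j = i ∨ j = a1 := by
      intro j hj
      omega
    have hcov1 : ∀ j : Fin 3, j ≠ a1 → j = i ∨ j = a0 := by
      intro j hj
      omega
    rcases hA i a0 a1 t0 s01 t1 _ x0 _ x1 _ x2 _ x3 hprod with h | h | h | h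
    · exact n02 (stepL hv e0 e2 e1 t1 hcov0 g00 g01 g11 g12 h)
    · exact n13 (stepL hv e1 e3 e2 t0 hcov1 g11 g12 g22 g23 h)
    · exact n02 (stepL hv e2 e0 e3 t1 hcov0 g22 g23 g33 g30 h).symm
    · exact n13 (stepL hv e3 e1 e0 t0 hcov1 g33 g30 g00 g01 h).symm
  · rcases e0 : c0.1 with a0 | a0 <;> rcases e1 : c1.1 with a1 | a1 <;>
      rcases e2 : c2.1 with a2 | a2 <;> rcases e3 : c3.1 with a3 | a3 <;>
      rw [hv, e0] at t0 <;> rw [hv, e1] at t1 <;> rw [hv, e2] at t2 <;> rw [hv, e3] at t3 <;>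
      rw [e0, e1] at s01 <;> rw [e1, e2] at s12 <;> rw [e2, e3] at s23 <;> rw [e3, e0] at s30 <;>
      simp only [tp] at t0 t1 t2 t3 s01 s12 s23 s30
    · -- inl inr inl inr
      obtain rfl : a0 = a2 := by omega
      exact n02 (uniqL hv e0 e2 t0 v0 v2)
    · -- inl inr inr inr
      obtain rfl : a1 = a3 := by omega
      exact n13 (uniqR hv e2 e1 e3 t2 v2 v1 h12.symm v3 h23)
    · -- inr inl inr inl
      obtain rfl : a1 = a3 := by omega
      exact n13 (uniqL hv e1 e3 t1 v1 v3)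
    · -- inr inl inr inr
      obtain rfl : a0 = a2 := by omega
      exact n02 (uniqR hv e3 e0 e2 t3 v3 v0 h30 v2 h23.symm)
    · -- inr inr inl inr
      obtain rfl : a1 = a3 := by omega
      exact n13 (uniqR hv e0 e1 e3 t0 v0 v1 h01 v3 h30.symm)
    · -- inr inr inr inl
      obtain rfl : a0 = a2 := by omega
      exact n02 (uniqR hv e1 e0 e2 t1 v1 v0 h01.symm v2 h12)
    · -- inr inr inr inr
      obtain rfl : a0 = a2 := by omega
      exact n02 (uniqR hv e1 e0 e2 t1 v1 v0 h01.symm v2 h12)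

theorem ANG5 (A : Fin 3 → Subgroup G)
    (v c0 c1 c2 c3 c4 : Σ t : Fin 3 ⊕ Fin 3, G ⧸ B A t) (v0 : (Med A).Adj v c0)
    (v1 : (Med A).Adj v c1) (v2 : (Med A).Adj v c2) (v3 : (Med A).Adj v c3)
    (v4 : (Med A).Adj v c4)
    (h01 : (Med A).Adj c0 c1) (h12 : (Med A).Adj c1 c2) (h23 : (Med A).Adj c2 c3)
    (h34 : (Med A).Adj c3 c4) (h40 : (Med A).Adj c4 c0) : False := by
  have t0 := v0.1
  have t1 := v1.1
  have t2 := v2.1
  have t3 := v3.1
  have t4 := v4.1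
  have s01 := h01.1
  have s12 := h12.1
  have s23 := h23.1
  have s34 := h34.1
  have s40 := h40.1
  clear v0 v1 v2 v3 v4 h01 h12 h23 h34 h40
  generalize v.1 = t at *
  generalize c0.1 = x0 at *
  generalize c1.1 = x1 at *
  generalize c2.1 = x2 at *
  generalize c3.1 = x3 at *
  generalize c4.1 = x4 at *
  rcases t with i | k <;> rcases x0 with a0 | a0 <;> rcases x1 with a1 | a1 <;>
    rcases x2 with a2 | a2 <;> rcases x3 with a3 | a3 <;> rcases x4 with a4 | a4 <;>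
    simp only [tp] at t0 t1 t2 t3 t4 s01 s12 s23 s34 s40 <;> omega

/-- ANG: no cycles of length four or five in the links. -/
theorem ANG {G : Type u} [Group G] (A : Fin 3 → Subgroup G) (hA : Large A) :
    (∀ v c0 c1 c2 c3, (Med A).Adj v c0 → (Med A).Adj v c1 → (Med A).Adj v c2 →
      (Med A).Adj v c3 → (Med A).Adj c0 c1 → (Med A).Adj c1 c2 → (Med A).Adj c2 c3 →
      (Med A).Adj c3 c0 → c0 ≠ c2 → c1 ≠ c3 → False) ∧
    ∀ v c0 c1 c2 c3 c4, (Med A).Adj v c0 → (Med A).Adj v c1 → (Med A).Adj v c2 →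
      (Med A).Adj v c3 → (Med A).Adj v c4 → (Med A).Adj c0 c1 → (Med A).Adj c1 c2 →
      (Med A).Adj c2 c3 → (Med A).Adj c3 c4 → (Med A).Adj c4 c0 → False :=
  ⟨fun v c0 c1 c2 c3 => ANG4 A hA v c0 c1 c2 c3, fun v c0 c1 c2 c3 c4 => ANG5 A v c0 c1 c2 c3 c4⟩

end Pool.Agent.H818.TG.P2
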