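import Pool.Agent.H818.TG.Defs
import Pool.Agent.H818.FG.Defs

/-!
# Simply connected locally 6-large flag complexes have bridged 1-skeleta

The proof uses the Gauss-Bonnet type theorem for minimal contractions of closed walks of the
library (`H351/FanThm.lean`).
-/

set_option autoImplicit false

namespace Pool.Agent.H818.TG

open Pool.Agent.H351 Pool.Agent.H818.FG
open scoped Real

universe u v w

variable {V : Type v} {Γ : SimpleGraph V}

/-- The links of the vertices have no full cycles of length four or five. -/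
structure Loc (Γ : SimpleGraph V) : Prop where
  c4 : ∀ v a b c d, Γ.Adj v a → Γ.Adj v b → Γ.Adj v c → Γ.Adj v d → Γ.Adj a b → Γ.Adj b c →
    Γ.Adj c d → Γ.Adj d a → a ≠ c → b ≠ d → Γ.Adj a c ∨ Γ.Adj b d
  c5 : ∀ v a b c d e, Γ.Adj v a → Γ.Adj v b → Γ.Adj v c → Γ.Adj v d → Γ.Adj v e → Γ.Adj a b →
    Γ.Adj b c → Γ.Adj c d → Γ.Adj d e → Γ.Adj e a → a ≠ c → b ≠ d → c ≠ e → d ≠ a → e ≠ b →
    Γ.Adj a c ∨ Γ.Adj b d ∨ Γ.Adj c e ∨ Γ.Adj d a ∨ Γ.Adj e b

/-- all angles are `π / 3` -/
noncomputable def an : V → V → V → ℝ := fun _ _ _ => π / 3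

theorem Loc.angSys (h : Loc Γ) : AngSys Γ (an : V → V → V → ℝ) where
  symm _ _ _ := rfl
  pos _ _ _ _ _ _ := by unfold an; positivity
  sum _ _ _ _ _ _ := by unfold an; linarith
  tri _ _ _ _ _ _ _ _ _ _ := by unfold an; linarith [Real.pi_pos]
  large v k c hinj hv hadj hno := by
    rcases Nat.lt_or_ge k 2 with hk | hk
    · exfalso
      interval_cases k
      · have e3 : ((3 : ZMod (0 + 4)) + 1) = 0 := by decide
        have h0 := hadj 0
        have h1 := hadj 1
        have h2 := hadj 2
        have h3 := hadj 3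
        have n0 := hno 0
        have n1 := hno 1
        have e01 : ((0 : ZMod (0 + 4)) + 1) = 1 := by decide
        have e12 : ((1 : ZMod (0 + 4)) + 1) = 2 := by decide
        have e23 : ((2 : ZMod (0 + 4)) + 1) = 3 := by decide
        have f0 : ((0 : ZMod (0 + 4)) + 2) = 2 := by decide
        have f1 : ((1 : ZMod (0 + 4)) + 2) = 3 := by decide
        rw [e01] at h0
        rw [e12] at h1
        rw [e23] at h2
        rw [e3] at h3
        rw [f0] at n0
        rw [f1] at n1
        rcases h.c4 v _ _ _ _ (hv 0) (hv 1) (hv 2) (hv 3) h0 h1 h2 h3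
          (fun e => absurd (hinj e) (by decide)) (fun e => absurd (hinj e) (by decide)) with h4 | h4
        · exact n0 h4
        · exact n1 h4
      · have e01 : ((0 : ZMod (1 + 4)) + 1) = 1 := by decide
        have e12 : ((1 : ZMod (1 + 4)) + 1) = 2 := by decide
        have e23 : ((2 : ZMod (1 + 4)) + 1) = 3 := by decide
        have e34 : ((3 : ZMod (1 + 4)) + 1) = 4 := by decide
        have e40 : ((4 : ZMod (1 + 4)) + 1) = 0 := by decide
        have f0 : ((0 : ZMod (1 + 4)) + 2) = 2 := by decide
        have f1 : ((1 : ZMod (1 + 4)) + 2) = 3 := by decide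
        have f2 : ((2 : ZMod (1 + 4)) + 2) = 4 := by decide
        have f3 : ((3 : ZMod (1 + 4)) + 2) = 0 := by decide
        have f4 : ((4 : ZMod (1 + 4)) + 2) = 1 := by decide
        have h0 := hadj 0
        have h1 := hadj 1
        have h2 := hadj 2
        have h3 := hadj 3
        have h4 := hadj 4
        have n0 := hno 0
        have n1 := hno 1
        have n2 := hno 2
        have n3 := hno 3
        have n4 := hno 4
        rw [e01] at h0
        rw [e12] at h1
        rw [e23] at h2
        rw [e34] at h3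
        rw [e40] at h4
        rw [f0] at n0
        rw [f1] at n1
        rw [f2] at n2
        rw [f3] at n3
        rw [f4] at n4
        rcases h.c5 v _ _ _ _ _ (hv 0) (hv 1) (hv 2) (hv 3) (hv 4) h0 h1 h2 h3 h4
          (fun e => absurd (hinj e) (by decide)) (fun e => absurd (hinj e) (by decide))
          (fun e => absurd (hinj e) (by decide)) (fun e => absurd (hinj e) (by decide))
          (fun e => absurd (hinj e) (by decide)) with h5 | h5 | h5 | h5 | h5
        · exact n0 h5
        · exact n1 h5
        · exact n2 h5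
        · exact n3 h5
        · exact n4 h5
    · have h1 : (∑ i : ZMod (k + 4), (an v (c i) (c (i + 1)) : ℝ)) = (k + 4) * (π / 3) := by
        simp [an, Finset.sum_const, ZMod.card]
      rw [h1]
      have h2 : (2 : ℝ) ≤ k := by exact_mod_cast hk
      nlinarith [Real.pi_pos]

theorem plen_an (v : V) : ∀ (S : List V) (x : V),
    plen (an v : V → V → ℝ) (x :: S) = S.length * (π / 3) := by
  intro S
  induction S with
  | nil => intro x; simp
  | cons a S ih =>
    intro x
    rw [plen_cons2, ih a]
    simp only [List.length_cons, an]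
    push_cast
    ring

theorem fan_angle {x y : V} {d : Ent V} (h : Fan Γ an x d y) :
    d.E = (d.S.length + 1) * (π / 3) := by
  rw [← h.2.2, plen_an]
  simp

theorem fan_ge {x y : V} {d : Ent V} (h : Fan Γ an x d y) : π / 3 ≤ d.E := by
  rw [fan_angle h]
  have : (0 : ℝ) ≤ d.S.length := by positivity
  nlinarith [Real.pi_pos]

/-- if the fan has an inner vertex its angle is at least `2 π / 3` -/
theorem fan_ge2 {x y : V} {d : Ent V} (h : Fan Γ an x d y) (hn : ¬ Γ.Adj x y) :
    2 * (π / 3) ≤ d.E := by
  rw [fan_angle h]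
  rcases hS : d.S with _ | ⟨a, S⟩
  · exfalso
    have := h.1
    rw [hS] at this
    simp at this
    exact hn this
  · simp only [List.length_cons]
    push_cast
    have : (0 : ℝ) ≤ S.length := by positivity
    nlinarith [Real.pi_pos]

/-- a small angle means that the ends of the fan are adjacent -/
theorem fan_small {x y : V} {d : Ent V} (h : Fan Γ an x d y) (hs : d.E < 2 * (π / 3)) :
    Γ.Adj x y := by
  by_contra hn
  exact absurd (fan_ge2 h hn) (not_le.2 hs)

/-- a nonrepeating closed walk with a minimal contraction is unsplit -/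
theorem unsplit_of_nodup {W : List V} {n : ℕ} (hW : W.Nodup) (hc : Cyc Γ W n)
    (hmin : ∀ m, Cyc Γ W m → n ≤ m) : Unsplit Γ W n := by
  refine ⟨hc, hmin, ?_⟩
  rintro a t rfl X s M Y e hXY
  exfalso
  have hat : a ∉ t := (List.nodup_cons.1 hW).1
  have htn : t.Nodup := (List.nodup_cons.1 hW).2
  rcases List.eq_nil_or_concat Y with rfl | ⟨Y', z, rfl⟩
  · rcases X with _ | ⟨x, X'⟩
    · simp at hXY
    · simp only [List.cons_append, List.cons.injEq] at e
      have e2 : t ++ [a] = (X' ++ s :: M) ++ [s] := by rw [e.2]; simp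
      obtain ⟨h1, h2⟩ := List.append_inj' e2 rfl
      simp only [List.cons.injEq, and_true] at h2
      apply hat
      rw [h1, h2]
      simp
  · rcases X with _ | ⟨x, X'⟩
    · simp only [List.nil_append, List.cons.injEq] at e
      have e2 : t ++ [a] = (M ++ s :: Y') ++ [z] := by rw [e.2]; simp
      obtain ⟨h1, h2⟩ := List.append_inj' e2 rfl
      apply hat
      rw [h1, e.1]
      simp
    · simp only [List.cons_append, List.cons.injEq] at e
      have e2 : t ++ [a] = (X' ++ s :: (M ++ s :: Y')) ++ [z] := by rw [e.2]; simp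
      obtain ⟨h1, h2⟩ := List.append_inj' e2 rfl
      rw [h1] at htn
      have h3 := (List.nodup_append.1 htn).2.1
      rw [List.nodup_cons] at h3
      apply h3.1
      simp

/-- paths going away from `o` -/
def Up (Γ : SimpleGraph V) (o : V) (l : List V) : Prop :=
  l.IsChain (fun a b => Γ.Adj a b ∧ Γ.dist o b = Γ.dist o a + 1)

/-- paths going towards `o` -/
def Dn (Γ : SimpleGraph V) (o : V) (l : List V) : Prop :=
  l.IsChain (fun a b => Γ.Adj a b ∧ Γ.dist o a = Γ.dist o b + 1)

theorem Ch_of_isChain {r : V → V → Prop} (hr : ∀ a b, r a b → Γ.Adj a b) :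
    ∀ l : List V, l.IsChain r → Ch Γ l := by
  intro l
  induction l with
  | nil => intro _; simp
  | cons a l ih =>
    intro h
    cases l with
    | nil => simp
    | cons b l =>
      rw [List.isChain_cons_cons] at h
      exact ⟨hr _ _ h.1, ih h.2⟩

theorem Up.reverse {o : V} {l : List V} (h : Up Γ o l) : Dn Γ o l.reverse := by
  unfold Dn
  rw [List.isChain_reverse]
  exact h.imp fun a b hab => ⟨hab.1.symm, hab.2⟩

theorem Dn.reverse {o : V} {l : List V} (h : Dn Γ o l) : Up Γ o l.reverse := by
  unfold Up
  rw [List.isChain_reverse]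
  exact h.imp fun a b hab => ⟨hab.1.symm, hab.2⟩

/-- the levels of an ascending path increase -/
theorem Up.pairwise {o : V} {l : List V} (h : Up Γ o l) :
    l.Pairwise (fun a b => Γ.dist o a < Γ.dist o b) := by
  have h1 : l.IsChain (fun a b => Γ.dist o a < Γ.dist o b) := h.imp fun a b hab => by omega
  have : IsTrans V (fun a b => Γ.dist o a < Γ.dist o b) := ⟨fun a b c h1 h2 => h1.trans h2⟩
  exact List.isChain_iff_pairwise.1 h1

theorem Dn.pairwise {o : V} {l : List V} (h : Dn Γ o l) :
    l.Pairwise (fun a b => Γ.dist o b < Γ.dist o a) := by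
  have h1 : l.IsChain (fun a b => Γ.dist o b < Γ.dist o a) := h.imp fun a b hab => by omega
  have : IsTrans V (fun a b => Γ.dist o b < Γ.dist o a) := ⟨fun a b c h1 h2 => h2.trans h1⟩
  exact List.isChain_iff_pairwise.1 h1

/-- distances along an ascending path -/
theorem Up.dist_le {o : V} (hc : Γ.Connected) : ∀ (l : List V) (z x : V),
    Up Γ o (z :: (l ++ [x])) → Γ.dist o z + Γ.dist z x ≤ Γ.dist o x := by
  intro l
  induction l with
  | nil =>
    intro z x h
    simp only [Up, List.nil_append, List.isChain_cons_cons] at h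
    have h1 : Γ.dist z x = 1 := SimpleGraph.dist_eq_one_iff_adj.2 h.1.1
    have := h.1.2
    omega
  | cons a l ih =>
    intro z x h
    simp only [Up, List.cons_append, List.isChain_cons_cons] at h
    have h1 : Γ.dist z a = 1 := SimpleGraph.dist_eq_one_iff_adj.2 h.1.1
    have h2 := ih a x h.2
    have h3 := hc.dist_triangle (u := z) (v := a) (w := x)
    have := h.1.2
    omega

theorem Up.dist_eq {o : V} (hc : Γ.Connected) {l : List V} {z x : V}
    (h : Up Γ o (z :: (l ++ [x]))) : Γ.dist o z + Γ.dist z x = Γ.dist o x :=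
  le_antisymm (Up.dist_le hc l z x h) (hc.dist_triangle)

theorem exists_up (hc : Γ.Connected) (o : V) : ∀ (m : ℕ) (x : V), Γ.dist o x = m + 1 →
    ∃ A, Up Γ o (o :: (A ++ [x])) := by
  intro m
  induction m with
  | zero =>
    intro x hx
    refine ⟨[], ?_⟩
    have h1 : Γ.Adj o x := SimpleGraph.dist_eq_one_iff_adj.1 (by simpa using hx)
    simp [Up, h1, hx]
  | succ m ih =>
    intro x hx
    have hxo : Γ.Reachable x o := hc x o
    obtain ⟨p, hp⟩ := hxo.exists_walk_length_eq_dist
    have hd : Γ.dist x o = m + 1 + 1 := by rw [SimpleGraph.dist_comm]; exact hx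
    cases p with
    | nil => rw [SimpleGraph.dist_self] at hd; omega
    | @cons _ q _ hq p =>
      have h1 : p.length + 1 = m + 1 + 1 := by rw [← hd, ← hp]; rfl
      have h2 : Γ.dist q o ≤ p.length := SimpleGraph.dist_le p
      have h3 : Γ.dist x o ≤ Γ.dist x q + Γ.dist q o := hc.dist_triangle
      have h4 : Γ.dist x q = 1 := SimpleGraph.dist_eq_one_iff_adj.2 hq
      have h5 : Γ.dist o q = m + 1 := by rw [SimpleGraph.dist_comm]; omega
      obtain ⟨A, hA⟩ := ih q h5
      refine ⟨A ++ [q], ?_⟩
      have h6 : o :: ((A ++ [q]) ++ [x]) = (o :: A) ++ q :: [x] := by simp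
      unfold Up at hA ⊢
      rw [h6, List.isChain_split]
      refine ⟨by simpa using hA, ?_⟩
      simp only [List.isChain_cons_cons, List.isChain_singleton, and_true]
      exact ⟨hq.symm, by omega⟩

end Pool.Agent.H818.TG
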