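import Pool.Agent.H818.TG.Br

/-!
# The triangle condition and the interval condition
-/

set_option autoImplicit false

namespace Pool.Agent.H818.TG

open Pool.Agent.H351 Pool.Agent.H818.FG
open scoped Real

universe u v w

variable {V : Type v} {Γ : SimpleGraph V}

theorem lst_split : ∀ (X : List (Ent V)) (o : V), ∃ Z, o :: X.map Ent.v = Z ++ [lst o X] := by
  intro X
  induction X with
  | nil => intro o; exact ⟨[], rfl⟩
  | cons d X ih =>
    intro o
    obtain ⟨Z, hZ⟩ := ih d.v
    exact ⟨o :: Z, by simp [hZ]⟩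

theorem hd_split (Y : List (Ent V)) (x : V) : ∃ Z, Y.map Ent.v ++ [x] = hd Y x :: Z := by
  cases Y with
  | nil => exact ⟨[], rfl⟩
  | cons d Y => exact ⟨Y.map Ent.v ++ [x], by simp⟩

/-- the corners where a minimal walk is geodesic have an angle at least `π` -/
theorem corner {D X Y : List (Ent V)} {d : Ent V} {n : ℕ} {p q : V} (hm : Marks Γ D n)
    (hD : D = X ++ d :: Y) (hF : Fan Γ an p d q) (hpq : ¬ Γ.Adj p q)
    (hmin : ∀ (u : V) (m : ℕ), Γ.Adj p u → Γ.Adj u q →
      Cyc Γ (X.map Ent.v ++ u :: Y.map Ent.v) m → n ≤ m) : π ≤ d.E := by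
  rcases hS : d.S with _ | ⟨u, _ | ⟨u', S⟩⟩
  · exfalso
    have := hF.1
    rw [hS] at this
    simp at this
    exact hpq this
  · exfalso
    have h1 := hF.1
    rw [hS] at h1
    simp only [List.cons_append, List.nil_append, Ch_cons2, Ch_single, and_true] at h1
    obtain ⟨m, hm1, hm2⟩ := hm (um X ++ (d, true) :: um Y) (by simp [hD]) indep_single
    have h2 : sub (um X ++ (d, true) :: um Y) = X.map Ent.v ++ u :: Y.map Ent.v := by
      simp [hS]
    rw [h2] at hm2
    have h3 := hmin u m h1.1 h1.2 hm2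
    simp only [cost_append, cost_um, cost_cons_true, hS, List.length_cons, List.length_nil] at hm1
    omega
  · rw [fan_angle hF, hS]
    simp only [List.length_cons]
    push_cast
    have : (0 : ℝ) ≤ S.length := by positivity
    nlinarith [Real.pi_pos]

theorem dsum_nonpos {D : List (Ent V)} (h : ∀ d ∈ D, π ≤ d.E) : dsum D ≤ 0 := by
  induction D with
  | nil => simp
  | cons d D ih =>
    rw [dsum_cons]
    have h1 := h d (by simp)
    have h2 := ih (fun e he => h e (by simp [he]))
    linarith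

/-- Two geodesics from `o` to the ends of a short path `x, M, y`: either some such geodesics meet,
or there are such geodesics for which the angles of the corners of `x, M, y` are small. -/
theorem core (hL : Loc Γ) (hc : Γ.Connected) (hsc : SimplyConn Γ) (o x y : V) (M : List V)
    (hM : Ch Γ (x :: (M ++ [y]))) (hnd : (x :: (M ++ [y])).Nodup)
    (hlev : ∀ z ∈ x :: (M ++ [y]), Γ.dist o x ≤ Γ.dist o z) (hxy : Γ.dist o y = Γ.dist o x)
    (hpos : 1 ≤ Γ.dist o x) :
    (∃ A B, Up Γ o (o :: (A ++ [x])) ∧ Dn Γ o (y :: (B ++ [o])) ∧ ∃ z ∈ A, z ∈ B) ∨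
    ∃ p q D, Γ.dist o p + 1 = Γ.dist o x ∧ Γ.dist o q + 1 = Γ.dist o y ∧
      D.map Ent.v = x :: (M ++ [y]) ∧ ok Γ an p D q ∧ 4 * (π / 3) ≤ dsum D := by
  by_cases hmeet : ∃ A B, Up Γ o (o :: (A ++ [x])) ∧ Dn Γ o (y :: (B ++ [o])) ∧ ∃ z ∈ A, z ∈ B
  · exact Or.inl hmeet
  right
  -- a walk exists
  have hex : ∃ n A B, Up Γ o (o :: (A ++ [x])) ∧ Dn Γ o (y :: (B ++ [o])) ∧
      Cyc Γ (o :: (A ++ (x :: (M ++ [y]) ++ B))) n := by
    obtain ⟨A, hA⟩ := exists_up hc o (Γ.dist o x - 1) x (by omega)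
    obtain ⟨B', hB'⟩ := exists_up hc o (Γ.dist o x - 1) y (by omega)
    have hB : Dn Γ o (y :: (B'.reverse ++ [o])) := by
      have := hB'.reverse
      simpa using this
    have hA1 : Ch Γ (o :: (A ++ [x])) := Ch_of_isChain (fun a b h => h.1) _ hA
    have hB1 : Ch Γ (y :: (B'.reverse ++ [o])) := Ch_of_isChain (fun a b h => h.1) _ hB
    have h1 : Ch Γ (o :: ((A ++ (x :: (M ++ [y]) ++ B'.reverse)) ++ [o])) := by
      have e1 : o :: ((A ++ (x :: (M ++ [y]) ++ B'.reverse)) ++ [o]) =
          (o :: A) ++ x :: (M ++ y :: (B'.reverse ++ [o])) := by simp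
      rw [e1, Ch_append]
      refine ⟨by simpa using hA1, ?_⟩
      have e2 : x :: (M ++ y :: (B'.reverse ++ [o])) = (x :: M) ++ y :: (B'.reverse ++ [o]) := by
        simp
      rw [e2, Ch_append]
      exact ⟨by simpa using hM, hB1⟩
    obtain ⟨n, hn⟩ := hsc o _ h1
    exact ⟨n, A, B'.reverse, hA, hB, hn⟩
  classical
  obtain ⟨A, B, hA, hB, hcyc⟩ := Nat.find_spec hex
  have hmin : ∀ m A' B', Up Γ o (o :: (A' ++ [x])) → Dn Γ o (y :: (B' ++ [o])) →
      Cyc Γ (o :: (A' ++ (x :: (M ++ [y]) ++ B'))) m → Nat.find hex ≤ m :=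
    fun m A' B' h1 h2 h3 => Nat.find_min' hex ⟨A', B', h1, h2, h3⟩
  set n := Nat.find hex with hn
  clear_value n
  -- levels
  have hAp := hA.pairwise
  have hBp := hB.pairwise
  have hAx : ∀ z ∈ A, Γ.dist o z < Γ.dist o x := by
    intro z hz
    have h1 := (List.pairwise_cons.1 hAp).2
    rw [List.pairwise_append] at h1
    exact h1.2.2 z hz x (by simp)
  have hAo : ∀ z ∈ A, 0 < Γ.dist o z := by
    intro z hz
    have h1 := (List.pairwise_cons.1 hAp).1 z (by simp [hz])
    rw [SimpleGraph.dist_self] at h1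
    exact h1
  have hBy : ∀ z ∈ B, Γ.dist o z < Γ.dist o x := by
    intro z hz
    have h1 := (List.pairwise_cons.1 hBp).1 z (by simp [hz])
    omega
  have hBo : ∀ z ∈ B, 0 < Γ.dist o z := by
    intro z hz
    have h1 := (List.pairwise_cons.1 hBp).2
    rw [List.pairwise_append] at h1
    have h2 := h1.2.2 z hz o (by simp)
    rw [SimpleGraph.dist_self] at h2
    exact h2
  have hAnd : A.Nodup := by
    have h1 := (List.pairwise_cons.1 hAp).2
    rw [List.pairwise_append] at h1
    exact h1.1.imp (fun h e => by rw [e] at h; exact lt_irrefl _ h)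
  have hBnd : B.Nodup := by
    have h1 := (List.pairwise_cons.1 hBp).2
    rw [List.pairwise_append] at h1
    exact h1.1.imp (fun h e => by rw [e] at h; exact lt_irrefl _ h)
  have hW : (o :: (A ++ (x :: (M ++ [y]) ++ B))).Nodup := by
    rw [List.nodup_cons]
    constructor
    · intro h
      rw [List.mem_append, List.mem_append] at h
      have ho : Γ.dist o o = 0 := SimpleGraph.dist_self
      rcases h with h | h | h
      · have := hAo o h; omega
      · have := hlev o h; omega
      · have := hBo o h; omega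
    · rw [List.nodup_append]
      refine ⟨hAnd, ?_, ?_⟩
      · rw [List.nodup_append]
        refine ⟨hnd, hBnd, ?_⟩
        rintro z hz w hw rfl
        have h1 := hlev z hz
        have h2 := hBy z hw
        omega
      · rintro z hz w hw rfl
        rw [List.mem_append] at hw
        rcases hw with hw | hw
        · have h1 := hlev z hw
          have h2 := hAx z hz
          omega
        · exact hmeet ⟨A, B, hA, hB, z, hz, hw⟩
  have hU : Unsplit Γ (o :: (A ++ (x :: (M ++ [y]) ++ B))) n :=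
    unsplit_of_nodup hW hcyc (fun m hm => hmin m A B hA hB hm)
  obtain ⟨D, hD⟩ := fan_theorem hL.angSys n _ (by simp; omega) hU
  -- the parts of `D`
  have hmap := hD.map
  obtain ⟨d0, D1, rfl, hd0, hD1⟩ := List.map_eq_cons_iff.1 hmap
  obtain ⟨DA, D2, rfl, hDA, hD2⟩ := List.map_eq_append_iff.1 hD1
  obtain ⟨DM, DB, rfl, hDM, hDB⟩ := List.map_eq_append_iff.1 hD2
  have hok : ok Γ an (lst d0.v (DA ++ (DM ++ DB))) (d0 :: (DA ++ (DM ++ DB))) d0.v := hD.ok
  rw [hd0] at hok
  have hF0 := hok.1
  have hok1 : ok Γ an o (DA ++ (DM ++ DB)) o := by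
    have := hok.2
    rwa [hd0] at this
  rw [ok_append] at hok1
  obtain ⟨hokA, hok2⟩ := hok1
  rw [ok_append] at hok2
  obtain ⟨hokM, hokB⟩ := hok2
  have hhdM : hd (DM ++ DB) o = x := by
    rw [hd_append]
    cases DM with
    | nil => simp at hDM
    | cons d DM => simp only [List.map_cons, List.cons.injEq] at hDM; exact hDM.1
  have hlstM : lst (lst o DA) DM = y := by
    obtain ⟨Z, hZ⟩ := lst_split DM (lst o DA)
    rw [hDM] at hZ
    have e1 : (lst o DA :: x :: M) ++ [y] = Z ++ [lst (lst o DA) DM] := by rw [← hZ]; simp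
    have := (List.append_inj' e1 rfl).2
    simpa using this.symm
  rw [hhdM] at hokA
  rw [hlstM] at hokB
  -- the corners of the first geodesic
  have hcA : ∀ d ∈ DA, π ≤ d.E := by
    intro d hd'
    obtain ⟨X, Y, rfl⟩ := List.append_of_mem hd'
    rw [ok_append] at hokA
    have hFan : Fan Γ an (lst o X) d (hd Y x) := hokA.2.1
    obtain ⟨Z1, hZ1⟩ := lst_split X o
    obtain ⟨Z2, hZ2⟩ := hd_split Y x
    have hA' : A = X.map Ent.v ++ d.v :: Y.map Ent.v := by rw [← hDA]; simp
    have hchain : Up Γ o (Z1 ++ lst o X :: d.v :: hd Y x :: Z2) := by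
      have e1 : o :: (A ++ [x]) = (o :: X.map Ent.v) ++ d.v :: (Y.map Ent.v ++ [x]) := by
        rw [hA']; simp
      rw [e1, hZ1, hZ2] at hA
      simpa using hA
    unfold Up at hchain
    rw [List.isChain_split] at hchain
    have hc2 := hchain.2
    rw [List.isChain_cons_cons, List.isChain_cons_cons] at hc2
    refine corner (X := d0 :: X) (Y := Y ++ (DM ++ DB)) hD.marks (by simp) hFan ?_ ?_
    · intro hadj
      have h1 : Γ.dist (lst o X) (hd Y x) = 1 := SimpleGraph.dist_eq_one_iff_adj.2 hadj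
      have h2 := hc.dist_triangle (u := o) (v := lst o X) (w := hd Y x)
      have h3 := hc2.1.2
      have h4 := hc2.2.1.2
      omega
    · intro u m hu1 hu2 hm
      have h3 := hc2.1.2
      have h4 := hc2.2.1.2
      have h5 : Γ.dist (lst o X) u = 1 := SimpleGraph.dist_eq_one_iff_adj.2 hu1
      have h6 : Γ.dist u (hd Y x) = 1 := SimpleGraph.dist_eq_one_iff_adj.2 hu2
      have h7 := hc.dist_triangle (u := o) (v := lst o X) (w := u)
      have h8 := hc.dist_triangle (u := o) (v := u) (w := hd Y x)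
      refine hmin m (X.map Ent.v ++ u :: Y.map Ent.v) B ?_ hB ?_
      · have e1 : o :: ((X.map Ent.v ++ u :: Y.map Ent.v) ++ [x]) =
            Z1 ++ lst o X :: u :: hd Y x :: Z2 := by
          have : o :: ((X.map Ent.v ++ u :: Y.map Ent.v) ++ [x]) =
            (o :: X.map Ent.v) ++ u :: (Y.map Ent.v ++ [x]) := by simp
          rw [this, hZ1, hZ2]; simp
        rw [e1]
        unfold Up
        rw [List.isChain_split]
        refine ⟨hchain.1, ?_⟩
        rw [List.isChain_cons_cons, List.isChain_cons_cons]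
        exact ⟨⟨hu1, by omega⟩, ⟨hu2, by omega⟩, hc2.2.2⟩
      · refine hm.congr ?_
        simp [hd0, hDM, hDB]
  have hcB : ∀ d ∈ DB, π ≤ d.E := by
    intro d hd'
    obtain ⟨X, Y, rfl⟩ := List.append_of_mem hd'
    rw [ok_append] at hokB
    have hFan : Fan Γ an (lst y X) d (hd Y o) := hokB.2.1
    obtain ⟨Z1, hZ1⟩ := lst_split X y
    obtain ⟨Z2, hZ2⟩ := hd_split Y o
    have hB' : B = X.map Ent.v ++ d.v :: Y.map Ent.v := by rw [← hDB]; simp
    have hchain : Dn Γ o (Z1 ++ lst y X :: d.v :: hd Y o :: Z2) := by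
      have e1 : y :: (B ++ [o]) = (y :: X.map Ent.v) ++ d.v :: (Y.map Ent.v ++ [o]) := by
        rw [hB']; simp
      rw [e1, hZ1, hZ2] at hB
      simpa using hB
    unfold Dn at hchain
    rw [List.isChain_split] at hchain
    have hc2 := hchain.2
    rw [List.isChain_cons_cons, List.isChain_cons_cons] at hc2
    refine corner (X := d0 :: (DA ++ (DM ++ X))) (Y := Y) hD.marks (by simp) hFan ?_ ?_
    · intro hadj
      have h1 : Γ.dist (hd Y o) (lst y X) = 1 := SimpleGraph.dist_eq_one_iff_adj.2 hadj.symm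
      have h2 := hc.dist_triangle (u := o) (v := hd Y o) (w := lst y X)
      have h3 := hc2.1.2
      have h4 := hc2.2.1.2
      omega
    · intro u m hu1 hu2 hm
      have h3 := hc2.1.2
      have h4 := hc2.2.1.2
      have h5 : Γ.dist u (lst y X) = 1 := SimpleGraph.dist_eq_one_iff_adj.2 hu1.symm
      have h6 : Γ.dist (hd Y o) u = 1 := SimpleGraph.dist_eq_one_iff_adj.2 hu2.symm
      have h7 := hc.dist_triangle (u := o) (v := u) (w := lst y X)
      have h8 := hc.dist_triangle (u := o) (v := hd Y o) (w := u)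
      refine hmin m A (X.map Ent.v ++ u :: Y.map Ent.v) hA ?_ ?_
      · have e1 : y :: ((X.map Ent.v ++ u :: Y.map Ent.v) ++ [o]) =
            Z1 ++ lst y X :: u :: hd Y o :: Z2 := by
          have : y :: ((X.map Ent.v ++ u :: Y.map Ent.v) ++ [o]) =
            (y :: X.map Ent.v) ++ u :: (Y.map Ent.v ++ [o]) := by simp
          rw [this, hZ1, hZ2]; simp
        rw [e1]
        unfold Dn
        rw [List.isChain_split]
        refine ⟨hchain.1, ?_⟩
        rw [List.isChain_cons_cons, List.isChain_cons_cons]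
        exact ⟨⟨hu1, by omega⟩, ⟨hu2, by omega⟩, hc2.2.2⟩
      · refine hm.congr ?_
        simp [hd0, hDM, hDA]
  have hsum := hD.sum
  simp only [dsum_cons, dsum_append] at hsum
  have h0 : π / 3 ≤ d0.E := fan_ge hF0
  have h1 := dsum_nonpos hcA
  have h2 := dsum_nonpos hcB
  refine ⟨lst o DA, hd DB o, DM, ?_, ?_, hDM, hokM, by linarith⟩
  · obtain ⟨Z, hZ⟩ := lst_split DA o
    have e1 : o :: (A ++ [x]) = Z ++ lst o DA :: [x] := by
      have : o :: (A ++ [x]) = (o :: DA.map Ent.v) ++ [x] := by rw [hDA]; simp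
      rw [this, hZ]; simp
    rw [e1] at hA
    unfold Up at hA
    rw [List.isChain_split] at hA
    have := hA.2
    simp only [List.isChain_cons_cons, List.isChain_singleton, and_true] at this
    omega
  · obtain ⟨Z, hZ⟩ := hd_split DB o
    have e1 : y :: (B ++ [o]) = y :: hd DB o :: Z := by rw [← hDB, hZ]
    rw [e1] at hB
    unfold Dn at hB
    rw [List.isChain_cons_cons] at hB
    omega

end Pool.Agent.H818.TG
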