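import Pool.Agent.H818.TG.Br2

/-!
# Bridged graphs
-/

set_option autoImplicit false

namespace Pool.Agent.H818.TG

open Pool.Agent.H351 Pool.Agent.H818.FG
open scoped Real

universe u v w

variable {V : Type v} {Γ : SimpleGraph V}

theorem dist_of_mem_up {o x z : V} {A : List V} (hc : Γ.Connected) (h : Up Γ o (o :: (A ++ [x])))
    (hz : z ∈ A) : Γ.dist o z + Γ.dist z x = Γ.dist o x := by
  obtain ⟨X, Y, rfl⟩ := List.append_of_mem hz
  have e : o :: ((X ++ z :: Y) ++ [x]) = (o :: X) ++ z :: (Y ++ [x]) := by simp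
  rw [e] at h
  unfold Up at h
  rw [List.isChain_split] at h
  exact Up.dist_eq hc h.2

theorem dist_of_mem_dn {o y z : V} {B : List V} (hc : Γ.Connected) (h : Dn Γ o (y :: (B ++ [o])))
    (hz : z ∈ B) : Γ.dist o z + Γ.dist z y = Γ.dist o y := by
  have h1 := h.reverse
  have e : (y :: (B ++ [o])).reverse = o :: (B.reverse ++ [y]) := by simp
  rw [e] at h1
  exact dist_of_mem_up hc h1 (by simpa using hz)

theorem pos_of_mem_up {o x z : V} {A : List V} (h : Up Γ o (o :: (A ++ [x])))
    (hz : z ∈ A) : 0 < Γ.dist o z ∧ Γ.dist o z < Γ.dist o x := by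
  have hp := h.pairwise
  rw [List.pairwise_cons] at hp
  constructor
  · have := hp.1 z (by simp [hz])
    rw [SimpleGraph.dist_self] at this
    exact this
  · have h2 := hp.2
    rw [List.pairwise_append] at h2
    exact h2.2.2 z hz x (by simp)

/-- the triangle condition -/
theorem triangle (hL : Loc Γ) (hc : Γ.Connected) (hsc : SimplyConn Γ) : ∀ (m : ℕ) (o x y : V),
    Γ.dist o x = m + 1 → Γ.dist o y = m + 1 → Γ.Adj x y →
      ∃ p, Γ.Adj p x ∧ Γ.Adj p y ∧ Γ.dist o p = m := by
  intro m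
  induction m using Nat.strong_induction_on with
  | _ m IH =>
  intro o x y hx hy hxy
  have h := core hL hc hsc o x y [] (by simpa using hxy) (by simpa using hxy.ne)
    (by
      intro z hz
      simp only [List.nil_append, List.mem_cons, List.not_mem_nil, or_false] at hz
      rcases hz with rfl | rfl <;> omega) (by omega) (by omega)
  rcases h with ⟨A, B, hA, hB, z, hzA, hzB⟩ | ⟨p, q, D, hp, hq, hD, hok, hsum⟩
  · have h1 := dist_of_mem_up hc hA hzA
    have h2 := dist_of_mem_dn hc hB hzB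
    have h3 := pos_of_mem_up hA hzA
    obtain ⟨p, hpx, hpy, hzp⟩ := IH (m - Γ.dist o z) (by omega) z x y (by omega) (by omega) hxy
    refine ⟨p, hpx, hpy, ?_⟩
    have h4 := hc.dist_triangle (u := o) (v := z) (w := p)
    have h5 := hc.dist_triangle (u := o) (v := p) (w := x)
    have h6 : Γ.dist p x = 1 := SimpleGraph.dist_eq_one_iff_adj.2 hpx
    omega
  · match D, hD with
    | [dx, dy], hD =>
      simp only [List.map_cons, List.map_nil, List.nil_append, List.cons.injEq, and_true] at hD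
      obtain ⟨rfl, rfl⟩ := hD
      simp only [ok, hd_cons, hd_nil] at hok
      obtain ⟨hFx, hFy, -⟩ := hok
      have h1 := fan_ge hFy
      have h2 : dx.E < 2 * (π / 3) := by
        simp only [dsum_cons, dsum_nil] at hsum
        nlinarith [Real.pi_pos]
      have h3 := fan_small hFx h2
      refine ⟨p, ?_, h3, by omega⟩
      exact (hFx.2.1 p (by simp)).symm

/-- the interval condition -/
theorem interval (hL : Loc Γ) (hc : Γ.Connected) (hsc : SimplyConn Γ) : ∀ (m : ℕ) (o u x y : V),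
    Γ.dist o x = m → Γ.dist o y = m → Γ.dist o u = m + 1 → Γ.Adj u x → Γ.Adj u y → x ≠ y →
      Γ.Adj x y := by
  intro m
  induction m using Nat.strong_induction_on with
  | _ m IH =>
  intro o u x y hx hy hu hux huy hxy
  have hm : 1 ≤ m := by
    by_contra hcon
    have hm0 : m = 0 := by omega
    subst hm0
    have h1 : o = x := (hc.dist_eq_zero_iff).1 hx
    have h2 : o = y := (hc.dist_eq_zero_iff).1 hy
    exact hxy (h1.symm.trans h2)
  have hux' : x ≠ u := fun e => hux.ne e.symm
  have huy' : u ≠ y := fun e => huy.ne e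
  have h := core hL hc hsc o x y [u]
    (by
      simp only [List.cons_append, List.nil_append, Ch_cons2, Ch_single, and_true]
      exact ⟨hux.symm, huy⟩)
    (by
      simp only [List.cons_append, List.nil_append, List.nodup_cons, List.mem_cons,
        List.not_mem_nil, or_false, List.nodup_nil, and_true, not_false_eq_true]
      exact ⟨not_or.2 ⟨hux', hxy⟩, huy'⟩)
    (by
      intro z hz
      simp only [List.cons_append, List.nil_append, List.mem_cons, List.not_mem_nil,
        or_false] at hz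
      rcases hz with rfl | rfl | rfl <;> omega) (by omega) (by omega)
  rcases h with ⟨A, B, hA, hB, z, hzA, hzB⟩ | ⟨p, q, D, hp, hq, hD, hok, hsum⟩
  · have h1 := dist_of_mem_up hc hA hzA
    have h2 := dist_of_mem_dn hc hB hzB
    have h3 := pos_of_mem_up hA hzA
    have h4 := hc.dist_triangle (u := o) (v := z) (w := u)
    have h5 := hc.dist_triangle (u := z) (v := x) (w := u)
    have h6 : Γ.dist x u = 1 := SimpleGraph.dist_eq_one_iff_adj.2 hux.symm
    exact IH (m - Γ.dist o z) (by omega) z u x y (by omega) (by omega) (by omega) hux huy hxy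
  · match D, hD with
    | [dx, du, dy], hD =>
      simp only [List.map_cons, List.map_nil, List.cons_append, List.nil_append,
        List.cons.injEq, and_true] at hD
      obtain ⟨rfl, rfl, rfl⟩ := hD
      simp only [ok, hd_cons, hd_nil] at hok
      obtain ⟨hFx, hFu, hFy, -⟩ := hok
      have h1 : 2 * (π / 3) ≤ dx.E := by
        refine fan_ge2 hFx fun hadj => ?_
        have h1 : Γ.dist p du.v = 1 := SimpleGraph.dist_eq_one_iff_adj.2 hadj
        have h2 := hc.dist_triangle (u := o) (v := p) (w := du.v)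
        omega
      have h2 : 2 * (π / 3) ≤ dy.E := by
        refine fan_ge2 hFy fun hadj => ?_
        have h1 : Γ.dist q du.v = 1 := SimpleGraph.dist_eq_one_iff_adj.2 hadj.symm
        have h2 := hc.dist_triangle (u := o) (v := q) (w := du.v)
        omega
      refine fan_small hFu ?_
      simp only [dsum_cons, dsum_nil] at hsum
      nlinarith [Real.pi_pos]

theorem cyc_left {n i j : ℕ} (d : ℕ) (h : i + d = j) (h2 : 2 * d ≤ n) :
    min (i - j + (j - i)) (n - (i - j + (j - i))) = d := by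
  have h1 : i - j + (j - i) = d := by omega
  rw [h1]
  omega

theorem cyc_left' {n i j : ℕ} (d : ℕ) (h : j + d = i) (h2 : 2 * d ≤ n) :
    min (i - j + (j - i)) (n - (i - j + (j - i))) = d := by
  have h1 : i - j + (j - i) = d := by omega
  rw [h1]
  omega

theorem cyc_right {n i j : ℕ} (d : ℕ) (h : i + n = j + d) (h2 : 2 * d ≤ n) :
    min (i - j + (j - i)) (n - (i - j + (j - i))) = d := by
  have h1 : i - j + (j - i) = n - d := by omega
  rw [h1]
  omega

/-- **Local to global.** A connected, simply connected graph whose links have no full cycles of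
length four or five is bridged. -/
theorem bridged (hL : Loc Γ) (hc : Γ.Connected) (hsc : SimplyConn Γ) : Bridged Γ := by
  refine ⟨hc, fun n hn c hiso => ?_⟩
  have hd : ∀ (i j : ℕ) (hi : i < n) (hj : j < n), Γ.dist (c ⟨i, hi⟩) (c ⟨j, hj⟩) =
      min (i - j + (j - i)) (n - (i - j + (j - i))) := fun i j hi hj => hiso ⟨i, hi⟩ ⟨j, hj⟩
  clear hiso
  rcases Nat.even_or_odd' n with ⟨m, hm | hm⟩
  · -- even
    have h0 : 0 < n := by omega
    have hm1 : m < n := by omega
    have hm2 : m - 1 < n := by omega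
    have hm3 : m + 1 < n := by omega
    have e1 := (hd 0 (m - 1) h0 hm2).trans (cyc_left (m - 1) (by omega) (by omega))
    have e2 := (hd 0 (m + 1) h0 hm3).trans (cyc_right (m - 1) (by omega) (by omega))
    have e3 := (hd 0 m h0 hm1).trans (cyc_left m (by omega) (by omega))
    have a1 : Γ.Adj (c ⟨m, hm1⟩) (c ⟨m - 1, hm2⟩) := SimpleGraph.dist_eq_one_iff_adj.1
      ((hd m (m - 1) hm1 hm2).trans (cyc_left' 1 (by omega) (by omega)))
    have a2 : Γ.Adj (c ⟨m, hm1⟩) (c ⟨m + 1, hm3⟩) := SimpleGraph.dist_eq_one_iff_adj.1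
      ((hd m (m + 1) hm1 hm3).trans (cyc_left 1 (by omega) (by omega)))
    have e4 := (hd (m - 1) (m + 1) hm2 hm3).trans (cyc_left 2 (by omega) (by omega))
    have hne : c ⟨m - 1, hm2⟩ ≠ c ⟨m + 1, hm3⟩ := by
      intro e
      rw [e, SimpleGraph.dist_self] at e4
      omega
    have h1 := interval hL hc hsc (m - 1) (c ⟨0, h0⟩) (c ⟨m, hm1⟩) _ _
      e1 e2 (by rw [e3]; omega) a1 a2 hne
    have h2 := SimpleGraph.dist_eq_one_iff_adj.2 h1
    omega
  · -- odd
    have h0 : 0 < n := by omega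
    have hm1 : m < n := by omega
    have hm2 : m - 1 < n := by omega
    have hm3 : m + 1 < n := by omega
    have hm4 : m + 2 < n := by omega
    have e0 := (hd 0 (m - 1) h0 hm2).trans (cyc_left (m - 1) (by omega) (by omega))
    have e1 := (hd 0 m h0 hm1).trans (cyc_left m (by omega) (by omega))
    have e2 := (hd 0 (m + 1) h0 hm3).trans (cyc_right m (by omega) (by omega))
    have e3 := (hd 0 (m + 2) h0 hm4).trans (cyc_right (m - 1) (by omega) (by omega))
    have a1 : Γ.Adj (c ⟨m, hm1⟩) (c ⟨m + 1, hm3⟩) := SimpleGraph.dist_eq_one_iff_adj.1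
      ((hd m (m + 1) hm1 hm3).trans (cyc_left 1 (by omega) (by omega)))
    obtain ⟨p, hp1, hp2, hp0⟩ := triangle hL hc hsc (m - 1) (c ⟨0, h0⟩) _ _
      (by rw [e1]; omega) (by rw [e2]; omega) a1
    have a2 : Γ.Adj (c ⟨m, hm1⟩) (c ⟨m - 1, hm2⟩) := SimpleGraph.dist_eq_one_iff_adj.1
      ((hd m (m - 1) hm1 hm2).trans (cyc_left' 1 (by omega) (by omega)))
    have a3 : Γ.Adj (c ⟨m + 1, hm3⟩) (c ⟨m + 2, hm4⟩) := SimpleGraph.dist_eq_one_iff_adj.1
      ((hd (m + 1) (m + 2) hm3 hm4).trans (cyc_left 1 (by omega) (by omega)))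
    have d1 := (hd (m - 1) (m + 1) hm2 hm3).trans (cyc_left 2 (by omega) (by omega))
    have d2 := (hd (m + 2) m hm4 hm1).trans (cyc_left' 2 (by omega) (by omega))
    have hne1 : p ≠ c ⟨m - 1, hm2⟩ := by
      rintro rfl
      have := SimpleGraph.dist_eq_one_iff_adj.2 hp2
      omega
    have hne2 : p ≠ c ⟨m + 2, hm4⟩ := by
      rintro rfl
      have := SimpleGraph.dist_eq_one_iff_adj.2 hp1
      omega
    have b1 : Γ.Adj p (c ⟨m - 1, hm2⟩) :=
      interval hL hc hsc (m - 1) (c ⟨0, h0⟩) (c ⟨m, hm1⟩) _ _ hp0 e0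
        (by rw [e1]; omega) hp1.symm a2 hne1
    have b2 : Γ.Adj p (c ⟨m + 2, hm4⟩) :=
      interval hL hc hsc (m - 1) (c ⟨0, h0⟩) (c ⟨m + 1, hm3⟩) _ _ hp0 e3
        (by rw [e2]; omega) hp2.symm a3 hne2
    have t1 := hc.dist_triangle (u := c ⟨m - 1, hm2⟩) (v := p) (w := c ⟨m + 2, hm4⟩)
    have t2 : Γ.dist (c ⟨m - 1, hm2⟩) p = 1 := SimpleGraph.dist_eq_one_iff_adj.2 b1.symm
    have t3 : Γ.dist p (c ⟨m + 2, hm4⟩) = 1 := SimpleGraph.dist_eq_one_iff_adj.2 b2
    have hm22 : m = 2 := by
      by_contra hne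
      have d3 := (hd (m - 1) (m + 2) hm2 hm4).trans (cyc_left 3 (by omega) (by omega))
      omega
    have hn5 : n = 5 := by omega
    subst hn5
    subst hm22
    have q0 : Γ.Adj p (c ⟨0, h0⟩) := by
      have : Γ.dist (c ⟨0, h0⟩) p = 1 := hp0
      exact (SimpleGraph.dist_eq_one_iff_adj.1 this).symm
    have k01 : Γ.Adj (c ⟨0, h0⟩) (c ⟨2 - 1, hm2⟩) := SimpleGraph.dist_eq_one_iff_adj.1
      ((hd 0 (2 - 1) h0 hm2).trans (by decide))
    have k40 : Γ.Adj (c ⟨2 + 2, hm4⟩) (c ⟨0, h0⟩) := SimpleGraph.dist_eq_one_iff_adj.1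
      ((hd (2 + 2) 0 hm4 h0).trans (by decide))
    have far : ∀ (i j : ℕ) (hi : i < 5) (hj : j < 5),
        min (i - j + (j - i)) (5 - (i - j + (j - i))) = 2 → c ⟨i, hi⟩ ≠ c ⟨j, hj⟩ ∧
          ¬ Γ.Adj (c ⟨i, hi⟩) (c ⟨j, hj⟩) := by
      intro i j hi hj h
      have h1 := (hd i j hi hj).trans h
      constructor
      · intro e
        rw [e, SimpleGraph.dist_self] at h1
        exact absurd h1 (by decide)
      · intro e
        have h2 := SimpleGraph.dist_eq_one_iff_adj.2 e
        rw [h1] at h2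
        exact absurd h2 (by decide)
    have f1 := far 0 2 h0 hm1 (by decide)
    have f2 := far (2 - 1) (2 + 1) hm2 hm3 (by decide)
    have f3 := far 2 (2 + 2) hm1 hm4 (by decide)
    have f4 := far (2 + 1) 0 hm3 h0 (by decide)
    have f5 := far (2 + 2) (2 - 1) hm4 hm2 (by decide)
    rcases hL.c5 p _ _ _ _ _ q0 b1 hp1 hp2 b2 k01 a2.symm a1 a3 k40 f1.1 f2.1 f3.1 f4.1 f5.1 with
      h | h | h | h | h
    · exact f1.2 h
    · exact f2.2 h
    · exact f3.2 h
    · exact f4.2 h
    · exact f5.2 h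

end Pool.Agent.H818.TG
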