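import Mathlib
import Pool.Graph.R_pool_sql_team_seeded_620a6dc7.H351.Path

/-!
# Triangles of groups: definitions
-/

set_option autoImplicit false

namespace Pool.Agent.H818.TG

open Pool.Agent.H351
open scoped Real

universe u v w

/-- Every closed walk is contractible through triangles. -/
def SimplyConn {V : Type v} (Γ : SimpleGraph V) : Prop :=
  ∀ (a : V) (l : List V), Ch Γ (a :: (l ++ [a])) → ∃ n, Cl Γ (a :: (l ++ [a])) n

variable {G : Type u} [Group G]

/-- The edge groups of the triangle of groups: `E A k` is the intersection of the two vertex groups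
different from `A k`. -/
def E (A : Fin 3 → Subgroup G) (k : Fin 3) : Subgroup G := A (k + 1) ⊓ A (k + 2)

/-- The vertex groups and the edge groups. -/
def B (A : Fin 3 → Subgroup G) : Fin 3 ⊕ Fin 3 → Subgroup G := Sum.elim A (E A)

/-- Adjacent types: `inl i` and `inr k` with `i ≠ k`, and `inr k`, `inr l` with `k ≠ l`. -/
def tp : Fin 3 ⊕ Fin 3 → Fin 3 ⊕ Fin 3 → Prop
  | .inl _, .inl _ => False
  | .inl i, .inr k => i ≠ k
  | .inr k, .inl i => i ≠ k
  | .inr k, .inr l => k ≠ l

instance : DecidableRel tp := fun a b => by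
  cases a <;> cases b <;> unfold tp <;> infer_instance

/-- The graph of the cosets of the vertex groups and of the edge groups; two cosets of adjacent
types are adjacent if they have a common element (the medial subdivision of the development of the
triangle of groups). -/
def Med (A : Fin 3 → Subgroup G) : SimpleGraph (Σ t : Fin 3 ⊕ Fin 3, G ⧸ B A t) where
  Adj p q := tp p.1 q.1 ∧ ∃ g : G, (g : G ⧸ B A p.1) = p.2 ∧ (g : G ⧸ B A q.1) = q.2
  symm := ⟨fun p q h => ⟨by
    have h1 := h.1
    generalize p.1 = s at h1 ⊢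
    generalize q.1 = t at h1 ⊢
    cases s <;> cases t <;> simp only [tp] at h1 ⊢ <;> first | exact h1 | exact h1.symm, by
    obtain ⟨g, h2, h3⟩ := h.2
    exact ⟨g, h3, h2⟩⟩⟩
  loopless := ⟨fun p h => by
    have h1 := h.1
    generalize p.1 = s at h1
    cases s <;> simp only [tp] at h1 <;> exact h1 rfl⟩

/-- The triangle of groups is nonpositively curved with angles at most `π / 3`: in the vertex group
`A i` no product of four elements, alternately in the two edge groups and outside of the third
vertex group, lies in the intersection of the three vertex groups. -/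
def Large (A : Fin 3 → Subgroup G) : Prop :=
  ∀ i j k : Fin 3, i ≠ j → j ≠ k → i ≠ k → ∀ x ∈ A i ⊓ A j, ∀ y ∈ A i ⊓ A k, ∀ x' ∈ A i ⊓ A j,
    ∀ y' ∈ A i ⊓ A k, x * y * x' * y' ∈ A 0 ⊓ A 1 ⊓ A 2 → x ∈ A k ∨ y ∈ A j ∨ x' ∈ A k ∨ y' ∈ A j

/-- `G` is the direct limit (colimit) of its subgroups `A i` and their pairwise intersections:
the `A i` generate `G`, and homomorphisms of the `A i` to a group which agree on the pairwise
intersections extend to `G`. -/
structure IsLimit (A : Fin 3 → Subgroup G) : Prop where
  gen : ⨆ i, A i = ⊤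
  lift : ∀ (H : Type u) [Group H] (f : ∀ i, A i →* H),
    (∀ i j (x : G) (hi : x ∈ A i) (hj : x ∈ A j), f i ⟨x, hi⟩ = f j ⟨x, hj⟩) →
      ∃ F : G →* H, ∀ i (x : A i), F x = f i x

end Pool.Agent.H818.TG
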