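import Pool.Agent.H818.TG.Tri

/-!
# Systolic complexes by local conditions, and triangles of groups
-/

set_option autoImplicit false

namespace Pool.Agent.H818.TG

open Pool.Agent.H351 Pool.Agent.H818.FG Pool.Agent.H818.CS
open Pool.Agent.N506.EX (IsExact CoarselyEmbeds)

universe u v w

/-- The flag complex of the graph `Γ` is systolic: it is connected, it is simply connected (every
closed walk can be contracted by removing backtracks and by replacing the two other edges of a
triangle by one edge), and the links of the vertices have no full cycles of length four or five. -/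
structure Systolic {V : Type v} (Γ : SimpleGraph V) : Prop where
  conn : Γ.Connected
  simply : SimplyConn Γ
  links : Loc Γ

theorem Systolic.bridged {V : Type v} {Γ : SimpleGraph V} (h : Systolic Γ) : Bridged Γ :=
  Pool.Agent.H818.TG.bridged h.links h.conn h.simply

/-- `G` is the direct limit of the triangle of groups formed by its subgroups `A 0`, `A 1`, `A 2`,
their pairwise intersections and the intersection of all three, and the angles of this triangle of
groups are at most `π / 3`. -/
structure Triangle {G : Type u} [Group G] (A : Fin 3 → Subgroup G) : Prop where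
  /-- the three subgroups generate `G` -/
  gen : ⨆ i, A i = ⊤
  /-- homomorphisms of the three subgroups to a group which agree on the pairwise intersections
  extend to `G` -/
  lift : ∀ (H : Type u) [Group H] (f : ∀ i, A i →* H),
    (∀ i j (x : G) (hi : x ∈ A i) (hj : x ∈ A j), f i ⟨x, hi⟩ = f j ⟨x, hj⟩) →
      ∃ F : G →* H, ∀ i (x : A i), F x = f i x
  /-- in `A i` no product of four elements, alternately in the edge groups `A i ⊓ A j` and
  `A i ⊓ A k` and not in the third vertex group, is trivial -/
  angle : ∀ i j k : Fin 3, i ≠ j → j ≠ k → i ≠ k → ∀ x ∈ A i ⊓ A j, ∀ y ∈ A i ⊓ A k,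
    ∀ x' ∈ A i ⊓ A j, ∀ y' ∈ A i ⊓ A k, x * y * x' * y' = 1 →
      x ∈ A k ∨ y ∈ A j ∨ x' ∈ A k ∨ y' ∈ A j

variable {G : Type u} [Group G] {A : Fin 3 → Subgroup G}

theorem Triangle.isLimit (h : Triangle A) : IsLimit A := ⟨h.gen, h.lift⟩

theorem mem_C : ∀ i j k : Fin 3, i ≠ j → j ≠ k → i ≠ k → ∀ (A : Fin 3 → Subgroup G) (z : G),
    z ∈ A 0 ⊓ A 1 ⊓ A 2 → z ∈ A i ∧ z ∈ A j ∧ z ∈ A k := by
  intro i j k _ _ _ A z hz
  obtain ⟨⟨h0, h1⟩, h2⟩ := hz
  have h : ∀ l : Fin 3, z ∈ A l := by
    intro l
    fin_cases l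
    · exact h0
    · exact h1
    · exact h2
  exact ⟨h i, h j, h k⟩

theorem Triangle.large (h : Triangle A) : Large A := by
  intro i j k hij hjk hik x hx y hy x' hx' y' hy' hC
  obtain ⟨hi, hj, hk⟩ := mem_C i j k hij hjk hik A _ hC
  have h1 : y' * (x * y * x' * y')⁻¹ ∈ A i ⊓ A k :=
    ⟨(A i).mul_mem hy'.1 ((A i).inv_mem hi), (A k).mul_mem hy'.2 ((A k).inv_mem hk)⟩
  rcases h.angle i j k hij hjk hik x hx y hy x' hx' _ h1 (by group) with h2 | h2 | h2 | h2
  · exact Or.inl h2
  · exact Or.inr (Or.inl h2)
  · exact Or.inr (Or.inr (Or.inl h2))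
  · refine Or.inr (Or.inr (Or.inr ?_))
    have h3 := (A j).mul_mem h2 hj
    rwa [inv_mul_cancel_right] at h3

theorem Triangle.isExact_iff (h : Triangle A) : IsExact G ↔ ∀ i, IsExact (A i) :=
  Pool.Agent.H818.TG.isExact_iff h.isLimit h.large

theorem Triangle.coarselyEmbeds_iff [Countable G] (h : Triangle A) :
    CoarselyEmbeds G ↔ ∀ i, CoarselyEmbeds (A i) :=
  Pool.Agent.H818.TG.coarselyEmbeds_iff h.isLimit h.large

end Pool.Agent.H818.TG
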