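import Pool.Agent.H818.TG.SCH

/-!
# The medial graph of a triangle of groups is connected and simply connected
-/

set_option autoImplicit false

namespace Pool.Agent.H818.TG.P3

open Pool.Agent.H351 Pool.Agent.H818.TG

universe u v w

abbrev Ty := Fin 3 ⊕ Fin 3

/-- a checker for contractible closed walks of types -/
def con : ℕ → List Ty → Bool
  | 0, _ => false
  | _ + 1, [] => false
  | _ + 1, [_] => true
  | _ + 1, [_, _] => false
  | n + 1, a :: b :: c :: q =>
    if a = c then decide (tp a b) && con n (c :: q)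
    else if tp a c then decide (tp a b) && decide (tp b c) && con n (a :: c :: q)
    else match q with
      | [] => false
      | d :: q' =>
        if b = d then decide (tp b c) && con n (a :: b :: q')
        else decide (tp b c) && decide (tp c d) && decide (tp b d) && con n (a :: b :: d :: q')

theorem con_sound {V : Type v} {Γ : SimpleGraph V} (v : Ty → V)
    (hv : ∀ s t, tp s t → Γ.Adj (v s) (v t)) :
    ∀ (n : ℕ) (w : List Ty), con n w = true → ∃ m, Cl Γ (w.map v) m := by
  intro n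
  induction n with
  | zero => intro w h; simp [con] at h
  | succ n ih =>
    intro w h
    match w with
    | [] => simp [con] at h
    | [a] => exact ⟨0, Cl.triv (v a) 0⟩
    | [a, b] => simp [con] at h
    | a :: b :: c :: q =>
      unfold con at h
      split_ifs at h with h1 h2
      · subst h1
        simp only [Bool.and_eq_true, decide_eq_true_eq] at h
        obtain ⟨m, hm⟩ := ih _ h.2
        have h3 : Cl Γ ([] ++ v a :: q.map v) m := hm.congr (by simp)
        exact ⟨m + 0, (h3.insert (Cl.spur (hv _ _ h.1) 0)).congr (by simp)⟩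
      · simp only [Bool.and_eq_true, decide_eq_true_eq] at h
        obtain ⟨m, hm⟩ := ih _ h.2
        have h3 : Cl Γ ([] ++ v a :: v c :: q.map v) m := hm.congr (by simp)
        exact ⟨m + 1, (h3.untri (hv _ _ h2) (hv _ _ h.1.1) (hv _ _ h.1.2)).congr (by simp)⟩
      · match q with
        | [] => simp at h
        | d :: q' =>
          simp only at h
          split_ifs at h with h3
          · subst h3
            simp only [Bool.and_eq_true, decide_eq_true_eq] at h
            obtain ⟨m, hm⟩ := ih _ h.2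
            have h4 : Cl Γ ([v a] ++ v b :: q'.map v) m := hm.congr (by simp)
            exact ⟨m + 0, (h4.insert (Cl.spur (hv _ _ h.1) 0)).congr (by simp)⟩
          · simp only [Bool.and_eq_true, decide_eq_true_eq] at h
            obtain ⟨m, hm⟩ := ih _ h.2
            have h4 : Cl Γ ([v a] ++ v b :: v d :: q'.map v) m := hm.congr (by simp)
            exact ⟨m + 1, (h4.untri (hv _ _ h.1.2) (hv _ _ h.1.1.1) (hv _ _ h.1.1.2)).congr
              (by simp)⟩

/-- a checker for homotopic walks of types -/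
def test (x : Ty) (p q : List Ty) : Bool :=
  if p = [] then con 12 (x :: q)
  else if q = [] then con 12 (x :: p)
  else decide (p.getLast? = q.getLast?) && con 12 (x :: (q ++ (p.reverse.tail ++ [x])))

theorem test_sound {V : Type v} {Γ : SimpleGraph V} (v : Ty → V)
    (hv : ∀ s t, tp s t → Γ.Adj (v s) (v t)) (x : Ty) (p q : List Ty) (h : test x p q = true) :
    ∃ n, Hq Γ (v x :: p.map v) (v x :: q.map v) n := by
  unfold test at h
  split_ifs at h with h1 h2
  · subst h1
    obtain ⟨m, hm⟩ := con_sound v hv _ _ h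
    have h3 : Cl Γ (v x :: q.map v) m := hm.congr (by simp)
    exact ⟨m, ((Hq.loop h3 []).symm).congr (by simp) (by simp)⟩
  · subst h2
    obtain ⟨m, hm⟩ := con_sound v hv _ _ h
    have h3 : Cl Γ (v x :: p.map v) m := hm.congr (by simp)
    exact ⟨m, (Hq.loop h3 []).congr (by simp) (by simp)⟩
  · simp only [Bool.and_eq_true, decide_eq_true_eq] at h
    obtain ⟨m, hm⟩ := con_sound v hv _ _ h.2
    obtain ⟨P0, y, rfl⟩ : ∃ P0 y, p = P0 ++ [y] := by
      rcases List.eq_nil_or_concat p with h3 | ⟨a, b, h3⟩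
      · exact absurd h3 h1
      · exact ⟨a, b, by simpa using h3⟩
    obtain ⟨Q0, z, rfl⟩ : ∃ Q0 z, q = Q0 ++ [z] := by
      rcases List.eq_nil_or_concat q with h3 | ⟨a, b, h3⟩
      · exact absurd h3 h2
      · exact ⟨a, b, by simpa using h3⟩
    have hyz : y = z := by simpa using h.1
    subst hyz
    have h3 : Cl Γ (v x :: (Q0.map v ++ v y :: ((P0.map v).reverse ++ [v x]))) m :=
      hm.congr (by simp)
    exact ⟨m, (Hq.of_cl h3).congr (by simp) (by simp)⟩

def Pt (t : Ty) : List Ty :=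
  if t = .inr 0 then [] else if t = .inl 0 then [.inr 1, .inl 0] else [t]

def Qt (t : Ty) : List Ty :=
  if t = .inr 0 then [] else if t = .inl 0 then [.inr 1, .inr 0] else [.inr 0]

theorem chk_PQ : ∀ i : Ty, test (.inr 0) (Pt i ++ Qt i) [] = true := by decide
theorem chk_QP : ∀ i : Ty, test i (Qt i ++ Pt i) [] = true := by decide
theorem chk_adj : ∀ i j : Ty, tp i j → test (.inr 0) (Pt i ++ [j]) (Pt j) = true := by decide
theorem chk_adjQ : ∀ i j : Ty, tp i j → test i (j :: Qt j) (Qt i) = true := by decide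
theorem chk_lastP : ∀ i : Ty, ((.inr 0 : Ty) :: Pt i).getLast? = some i := by decide
theorem chk_lastQ : ∀ i : Ty, (i :: Qt i).getLast? = some (.inr 0) := by decide

variable {G : Type u} [Group G]

/-- the coset of `g` of type `t` -/
def vt (A : Fin 3 → Subgroup G) (g : G) (t : Ty) : Σ t : Fin 3 ⊕ Fin 3, G ⧸ B A t :=
  ⟨t, (g : G ⧸ B A t)⟩

theorem vt_adj {A : Fin 3 → Subgroup G} {g : G} {s t : Ty} (h : tp s t) :
    (Med A).Adj (vt A g s) (vt A g t) := ⟨h, g, rfl, rfl⟩

theorem smul_vt {A : Fin 3 → Subgroup G} (g h : G) (t : Ty) :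
    g • vt A h t = vt A (g * h) t := rfl

theorem vt_eq {A : Fin 3 → Subgroup G} {g h : G} {t : Ty} (hh : g⁻¹ * h ∈ B A t) :
    vt A g t = vt A h t := by
  unfold vt
  rw [QuotientGroup.eq.2 hh]

theorem vt_inj {A : Fin 3 → Subgroup G} {g h : G} {s t : Ty} (e : vt A g s = vt A h t) :
    s = t ∧ g⁻¹ * h ∈ B A s := by
  unfold vt at e
  have h1 : s = t := congrArg Sigma.fst e
  subst h1
  exact ⟨rfl, QuotientGroup.eq.1 (eq_of_heq (Sigma.mk.inj e).2)⟩

theorem exists_vt {A : Fin 3 → Subgroup G} (x : Σ t : Fin 3 ⊕ Fin 3, G ⧸ B A t) :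
    ∃ g, x = vt A g x.1 := by
  obtain ⟨t, q⟩ := x
  obtain ⟨g, rfl⟩ := QuotientGroup.mk_surjective q
  exact ⟨g, rfl⟩

theorem tp_dec : ∀ t : Ty, t = .inr 0 ∨ tp t (.inr 0) ∨ (tp t (.inr 1) ∧ tp (.inr 1) (.inr 0)) := by
  decide

theorem reach0 (A : Fin 3 → Subgroup G) (g : G) (t : Ty) :
    (Med A).Reachable (vt A g t) (vt A g (.inr 0)) := by
  rcases tp_dec t with rfl | h | ⟨h1, h2⟩
  · exact SimpleGraph.Reachable.refl _
  · exact (vt_adj h).reachable
  · exact (vt_adj h1).reachable.trans (vt_adj h2).reachable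

theorem reach_smul (A : Fin 3 → Subgroup G) (hgen : ⨆ i, A i = ⊤) (a : G) :
    ∀ h : G, (Med A).Reachable (vt A (h * a) (.inr 0)) (vt A h (.inr 0)) := by
  have ha : a ∈ ⨆ i, A i := by rw [hgen]; exact Subgroup.mem_top a
  refine Subgroup.iSup_induction A (C := fun a => ∀ h : G,
    (Med A).Reachable (vt A (h * a) (.inr 0)) (vt A h (.inr 0))) ha ?_ ?_ ?_
  · intro i x hx h
    have e : vt A (h * x) (.inl i) = vt A h (.inl i) := by
      refine vt_eq ?_
      have : (h * x)⁻¹ * h = x⁻¹ := by group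
      rw [this]
      exact (A i).inv_mem hx
    have h1 := (reach0 A (h * x) (.inl i)).symm
    rw [e] at h1
    exact h1.trans (reach0 A h (.inl i))
  · intro h
    rw [mul_one]
  · intro x y hx hy h
    have h1 := hy (h * x)
    rw [mul_assoc] at h1
    exact h1.trans (hx h)

theorem med_connected (A : Fin 3 → Subgroup G) (hA : IsLimit A) : (Med A).Connected := by
  have key : ∀ x, (Med A).Reachable x (vt A 1 (.inr 0)) := by
    intro x
    obtain ⟨g, hg⟩ := exists_vt x
    rw [hg]
    have h1 := reach_smul A hA.gen g 1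
    rw [one_mul] at h1
    exact (reach0 A g x.1).trans h1
  have : Nonempty (Σ t : Fin 3 ⊕ Fin 3, G ⧸ B A t) := ⟨vt A 1 (.inr 0)⟩
  exact ⟨fun x y => (key x).trans (key y).symm⟩

theorem med_act (A : Fin 3 → Subgroup G) (g : G) (x y : Σ t : Fin 3 ⊕ Fin 3, G ⧸ B A t)
    (h : (Med A).Adj x y) : (Med A).Adj (g • x) (g • y) := by
  obtain ⟨h1, k, h2, h3⟩ := h
  obtain ⟨s, q⟩ := x
  obtain ⟨t, r⟩ := y
  simp only at h1 h2 h3
  subst h2 h3
  exact ⟨h1, g * k, rfl, rfl⟩

theorem third : ∀ i j : Fin 3, i ≠ j → ∃ k : Fin 3, i ≠ k ∧ j ≠ k ∧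
    ((k + 1 = i ∧ k + 2 = j) ∨ (k + 1 = j ∧ k + 2 = i)) := by decide

theorem SCM {G : Type u} [Group G] (A : Fin 3 → Subgroup G) (hA : IsLimit A) :
    (Med A).Connected ∧ SimplyConn (Med A) := by
  have hconn := med_connected A hA
  refine ⟨hconn, ?_⟩
  have hv : ∀ s t, tp s t → (Med A).Adj (vt A 1 s) (vt A 1 t) := fun s t h => vt_adj h
  refine Pool.Agent.H818.TG.P1.SCH (V := Σ t : Fin 3 ⊕ Fin 3, G ⧸ B A t) (Γ := Med A) hconn (med_act A) (vt A 1) (B A)
    (.inr 0) (fun t => (Pt t).map (vt A 1)) (fun t => (Qt t).map (vt A 1)) ?_ ?_ ?_ ?_ ?_ ?_ ?_ ?_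
    ?_ ?_ ?_ ?_ ?_
  · -- hfix
    intro i a ha
    rw [smul_vt]
    refine vt_eq ?_
    simpa using ha
  · -- hgen
    rw [eq_top_iff, ← hA.gen]
    exact iSup_le fun i => le_iSup (B A) (.inl i)
  · -- hedge
    intro x y h
    obtain ⟨h1, g, h2, h3⟩ := h
    refine ⟨g, x.1, y.1, ?_, ?_, vt_adj h1⟩
    · rw [smul_vt, mul_one]
      obtain ⟨s, q⟩ := x
      simp only at h2
      subst h2
      rfl
    · rw [smul_vt, mul_one]
      obtain ⟨t, r⟩ := y
      simp only at h3
      subst h3
      rfl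
  · -- hsep
    intro g h i j e
    rw [smul_vt, smul_vt, mul_one, mul_one] at e
    exact vt_inj e
  · -- hP0
    simp [Pt]
  · -- hQ0
    simp [Qt]
  · -- hlastP
    intro i
    have h1 := congrArg (Option.map (vt A 1)) (chk_lastP i)
    rw [← List.getLast?_map] at h1
    simpa using h1
  · -- hlastQ
    intro i
    have h1 := congrArg (Option.map (vt A 1)) (chk_lastQ i)
    rw [← List.getLast?_map] at h1
    simpa using h1
  · -- hPQ
    intro i
    obtain ⟨n, hn⟩ := test_sound (vt A 1) hv _ _ _ (chk_PQ i)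
    exact ⟨n, hn.congr (by simp) (by simp)⟩
  · -- hQP
    intro i
    obtain ⟨n, hn⟩ := test_sound (vt A 1) hv _ _ _ (chk_QP i)
    exact ⟨n, hn.congr (by simp) (by simp)⟩
  · -- hadj
    intro i j h
    obtain ⟨n, hn⟩ := test_sound (vt A 1) hv _ _ _ (chk_adj i j h.1)
    exact ⟨n, hn.congr (by simp) (by simp)⟩
  · -- hadjQ
    intro i j h
    obtain ⟨n, hn⟩ := test_sound (vt A 1) hv _ _ _ (chk_adjQ i j h.1)
    exact ⟨n, hn.congr (by simp) (by simp)⟩
  · -- hF
    intro H _ f hf
    have hf' : ∀ s t, tp s t → ∀ (x : G) (hs : x ∈ B A s) (ht : x ∈ B A t),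
        f s ⟨x, hs⟩ = f t ⟨x, ht⟩ := fun s t h => hf s t (vt_adj h)
    obtain ⟨F, hF⟩ := hA.lift H (fun i => f (.inl i)) (by
      intro i j x hi hj
      by_cases hij : i = j
      · subst hij; rfl
      · obtain ⟨k, hik, hjk, hk⟩ := third i j hij
        have hx : x ∈ B A (.inr k) := by
          show x ∈ A (k + 1) ⊓ A (k + 2)
          rcases hk with ⟨h1, h2⟩ | ⟨h1, h2⟩
          · rw [h1, h2]; exact ⟨hi, hj⟩
          · rw [h1, h2]; exact ⟨hj, hi⟩
        exact (hf' (.inl i) (.inr k) hik x hi hx).trans (hf' (.inl j) (.inr k) hjk x hj hx).symm)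
    refine ⟨F, ?_⟩
    intro t x
    match t with
    | .inl i => exact hF i x
    | .inr k =>
      have hx : (x : G) ∈ A (k + 1) := (show (x : G) ∈ A (k + 1) ⊓ A (k + 2) from x.2).1
      have hne : ∀ k : Fin 3, k + 1 ≠ k := by decide
      exact (hF (k + 1) ⟨x, hx⟩).trans (hf' (.inl (k + 1)) (.inr k) (hne k) x hx x.2)

end Pool.Agent.H818.TG.P3
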