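import Pool.Agent.H818.TG.Br3
import Pool.Agent.H818.TG.SCM
import Pool.Agent.H818.TG.ANG
import Pool.Agent.H818.FG.Main

/-!
# Triangles of groups: the action on a bridged graph
-/

set_option autoImplicit false

namespace Pool.Agent.H818.TG

open Pool.Agent.H351 Pool.Agent.H818.FG Pool.Agent.H818.CS
open Pool.Agent.N506.EX (IsExact CoarselyEmbeds)

universe u v w

variable {G : Type u} [Group G] {A : Fin 3 → Subgroup G}

theorem med_loc (hA : Large A) : Loc (Med A) where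
  c4 v a b c d h1 h2 h3 h4 h5 h6 h7 h8 h9 h10 :=
    ((P2.ANG A hA).1 v a b c d h1 h2 h3 h4 h5 h6 h7 h8 h9 h10).elim
  c5 v a b c d e h1 h2 h3 h4 h5 h6 h7 h8 h9 h10 _ _ _ _ _ :=
    ((P2.ANG A hA).2 v a b c d e h1 h2 h3 h4 h5 h6 h7 h8 h9 h10).elim

theorem med_bridged (hG : IsLimit A) (hA : Large A) : Bridged (Med A) :=
  bridged (med_loc hA) (P3.SCM A hG).1 (P3.SCM A hG).2

theorem tp_no4 : ∀ a b c d : Fin 3 ⊕ Fin 3, tp a b → tp a c → tp a d → tp b c → tp b d → tp c d →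
    False := by
  decide

/-- the cliques have at most three elements -/
theorem med_cliques : CliquesLE (Med A) 3 := by
  classical
  intro s hs
  by_contra hcon
  obtain ⟨t, hts, ht⟩ := Finset.exists_subset_card_eq (show 4 ≤ s.card by omega)
  obtain ⟨a, b, c, d, hab, hac, had, hbc, hbd, hcd, ht'⟩ := Finset.card_eq_four.1 ht
  rw [ht'] at hts
  have h : ∀ x y, x ∈ ({a, b, c, d} : Finset (Σ t : Fin 3 ⊕ Fin 3, G ⧸ B A t)) →
      y ∈ ({a, b, c, d} : Finset (Σ t : Fin 3 ⊕ Fin 3, G ⧸ B A t)) → x ≠ y →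
      tp x.1 y.1 := fun x y hx hy hxy => (hs (hts hx) (hts hy) hxy).1
  exact tp_no4 a.1 b.1 c.1 d.1 (h a b (by simp) (by simp) hab) (h a c (by simp) (by simp) hac)
    (h a d (by simp) (by simp) had) (h b c (by simp) (by simp) hbc)
    (h b d (by simp) (by simp) hbd) (h c d (by simp) (by simp) hcd)

theorem med_act' (g : G) (x y : Σ t : Fin 3 ⊕ Fin 3, G ⧸ B A t) (h : (Med A).Adj x y) :
    (Med A).Adj (g • x) (g • y) := by
  obtain ⟨h1, k, h2, h3⟩ := h
  refine ⟨h1, g * k, ?_, ?_⟩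
  · show ((g * k : G) : G ⧸ B A x.1) = g • x.2
    rw [← h2]; rfl
  · show ((g * k : G) : G ⧸ B A y.1) = g • y.2
    rw [← h3]; rfl

/-- the stabilizer of a coset embeds in the subgroup -/
theorem stab_emb (t : Fin 3 ⊕ Fin 3) (k : G) :
    ∃ f : MulAction.stabilizer G (⟨t, (k : G ⧸ B A t)⟩ : Σ t : Fin 3 ⊕ Fin 3, G ⧸ B A t) →* B A t,
      Function.Injective f := by
  have hmem : ∀ g : MulAction.stabilizer G
      (⟨t, (k : G ⧸ B A t)⟩ : Σ t : Fin 3 ⊕ Fin 3, G ⧸ B A t), k⁻¹ * g * k ∈ B A t := by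
    intro g
    have h1 : (⟨t, (((g : G) * k : G) : G ⧸ B A t)⟩ : Σ t : Fin 3 ⊕ Fin 3, G ⧸ B A t) =
        ⟨t, (k : G ⧸ B A t)⟩ := g.2
    have h2 : (((g : G) * k : G) : G ⧸ B A t) = (k : G ⧸ B A t) := by simpa using h1
    have h3 := QuotientGroup.eq.1 h2
    have h4 : ((g : G) * k)⁻¹ * k = (k⁻¹ * g * k)⁻¹ := by group
    rw [h4] at h3
    exact (B A t).inv_mem_iff.1 h3
  refine ⟨⟨⟨fun g => ⟨k⁻¹ * g * k, hmem g⟩, ?_⟩, ?_⟩, ?_⟩
  · ext; simp
  · intro g h
    ext
    simp only [Subgroup.coe_mul]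
    group
  · intro g h hgh
    have h1 : k⁻¹ * (g : G) * k = k⁻¹ * h * k := congrArg Subtype.val hgh
    ext
    simpa using h1

theorem B_le (t : Fin 3 ⊕ Fin 3) : ∃ i, B A t ≤ A i := by
  rcases t with i | k
  · exact ⟨i, le_rfl⟩
  · exact ⟨k + 1, inf_le_left⟩

theorem isExact_iff (hG : IsLimit A) (hA : Large A) : IsExact G ↔ ∀ i, IsExact (A i) := by
  constructor
  · intro h i
    exact Pool.Agent.H818.Bd.isExact_of_injective h (Subgroup.subtype _)
      (Subgroup.subtype_injective _)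
  · intro h
    refine (((med_bridged hG hA).tame med_cliques).isExact_iff (fun g x y => med_act' g x y)).2 ?_
    rintro ⟨t, x⟩
    obtain ⟨k, rfl⟩ := QuotientGroup.mk_surjective x
    obtain ⟨f, hf⟩ := stab_emb (A := A) t k
    obtain ⟨i, hi⟩ := B_le (A := A) t
    exact Pool.Agent.H818.Bd.isExact_of_injective (h i) ((Subgroup.inclusion hi).comp f)
      ((Subgroup.inclusion_injective hi).comp hf)

theorem coarselyEmbeds_iff [Countable G] (hG : IsLimit A) (hA : Large A) :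
    CoarselyEmbeds G ↔ ∀ i, CoarselyEmbeds (A i) := by
  constructor
  · intro h i
    exact CoarselyEmbeds.of_injective h (Subgroup.subtype _) (Subgroup.subtype_injective _)
  · intro h
    refine (((med_bridged hG hA).tame med_cliques).coarselyEmbeds_iff
      (fun g x y => med_act' g x y)).2 ?_
    rintro ⟨t, x⟩
    obtain ⟨k, rfl⟩ := QuotientGroup.mk_surjective x
    obtain ⟨f, hf⟩ := stab_emb (A := A) t k
    obtain ⟨i, hi⟩ := B_le (A := A) t
    exact CoarselyEmbeds.of_injective (h i) ((Subgroup.inclusion hi).comp f)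
      ((Subgroup.inclusion_injective hi).comp hf)

end Pool.Agent.H818.TG
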